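import Pool.Agent.Helper503_UI.Cl

/-! # The primitive characters of conductor dividing `𝔮`, arbitrary number fields -/

set_option autoImplicit false
set_option linter.unusedSectionVars false

open NumberField

namespace Pool.Agent.Helper503_UI

open Pool.Agent.Y773 (TPos VM cc)
open Pool.Agent.Y772.DK (NN NN_finite cc_mul)
open Pool.Agent.Y767 (Mq Mq_cop Mq_ne_bot Mq_cancel Cls cls cK)
open Pool.Agent.Y773.IQ (ne_zero_of_cop cop_mono cop_one cop_congr cop_mul absNorm_pos' Fam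
  Fam_ne_zero toM' tM tM_coe card_units_le_norm cd cd_spec dv dv_finite mem_NN IM mem_IM sum_IM
  sum_cc sq_cK sum_sq cop_of_norm)

section

variable {K : Type} [Field K] [NumberField K]

lemma tM_mem {𝔮 : Ideal (𝓞 K)} (htop : 𝔮 ≠ ⊤)
    {ψ : Ideal (𝓞 K) →*₀ ℂ} (h : ψ ∈ Fam 𝔮) : tM 𝔮 ψ ∈ D1 htop := by
  intro x
  ext
  rw [tM_coe htop h, pi1_coe, Units.val_one]
  obtain ⟨𝔣, h1, h2, h3⟩ := h
  exact h3.ray x (ne_zero_of_cop htop (T1_cop x)) (Ideal.dvd_iff_le.mp h1 (T1_mem x)) (T1_pos x)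

lemma tM_inj {𝔮 : Ideal (𝓞 K)} (hbot : 𝔮 ≠ ⊥) (htop : 𝔮 ≠ ⊤) :
    Set.InjOn (tM 𝔮) (Fam 𝔮) := by
  intro ψ h ψ' h' he
  have he' : ∀ 𝔞, IsCoprime 𝔞 𝔮 → ψ 𝔞 = ψ' 𝔞 := by
    intro 𝔞 h𝔞
    have h1 := tM_coe htop h ⟨𝔞, h𝔞⟩
    have h2 := tM_coe htop h' ⟨𝔞, h𝔞⟩
    rw [he] at h1
    exact h1.symm.trans h2
  obtain ⟨𝔣, h1, h2, h3⟩ := h
  obtain ⟨𝔣', h1', h2', h3'⟩ := h'
  exact prim_unique' hbot h3 h3' h1 h1' h2 h2' he'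

lemma Fam_finite {𝔮 : Ideal (𝓞 K)} (hbot : 𝔮 ≠ ⊥) (htop : 𝔮 ≠ ⊤) :
    (Fam 𝔮).Finite ∧ (Fam 𝔮).ncard ≤ Nat.card (Cls (pi1 htop)) := by
  obtain ⟨h1, h2⟩ := D1_card hbot htop
  have hm : Set.MapsTo (tM 𝔮) (Fam 𝔮) (D1 htop) := fun ψ h => tM_mem htop h
  refine ⟨Set.Finite.of_injOn hm (tM_inj hbot htop) h1, ?_⟩
  rw [← h2]
  exact Set.ncard_le_ncard_of_injOn _ hm (tM_inj hbot htop) h1

lemma Fam_lower {𝔮 : Ideal (𝓞 K)} (hbot : 𝔮 ≠ ⊥) (htop : 𝔮 ≠ ⊤) :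
    Nat.card (Cls (pi1 htop)) ≤ (Fam 𝔮).ncard + hK K := by
  obtain ⟨h1, h2⟩ := D1_card hbot htop
  have hsub : D1 htop ⊆ tM 𝔮 '' Fam 𝔮 ∪ D0 𝔮 := by
    intro F hF
    rcases exists_prim' hbot htop F hF with h | ⟨𝔣, ψ, h3, h4, h5, h6⟩
    · exact Or.inr h
    · left
      have hψ : ψ ∈ Fam 𝔮 := ⟨𝔣, h3, h4, h5⟩
      refine ⟨ψ, hψ, ?_⟩
      ext x
      rw [tM_coe htop hψ, h6]
  have hf := (Fam_finite hbot htop).1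
  rw [← h2]
  refine (Set.ncard_le_ncard hsub ((hf.image _).union (h1.subset (D0_sub htop)))).trans ?_
  refine (Set.ncard_union_le _ _).trans ?_
  exact Nat.add_le_add (Set.ncard_image_le hf) (D0_card hbot htop)

/-- the number of the primitive characters of conductor `𝔣` -/
lemma prim_card {𝔣 : Ideal (𝓞 K)} (hbot : 𝔣 ≠ ⊥) (htop : 𝔣 ≠ ⊤) :
    {ψ : Ideal (𝓞 K) →*₀ ℂ | Pool.Agent.Y773.G.IsPrimChar K 𝔣 ψ}.Finite ∧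
    {ψ : Ideal (𝓞 K) →*₀ ℂ | Pool.Agent.Y773.G.IsPrimChar K 𝔣 ψ}.ncard ≤
      Ideal.absNorm 𝔣 * hK K := by
  obtain ⟨h1, h2⟩ := Fam_finite hbot htop
  have hsub : {ψ : Ideal (𝓞 K) →*₀ ℂ | Pool.Agent.Y773.G.IsPrimChar K 𝔣 ψ} ⊆ Fam 𝔣 := fun ψ h =>
    ⟨𝔣, dvd_refl _, htop, h⟩
  refine ⟨h1.subset hsub, (Set.ncard_le_ncard hsub h1).trans (h2.trans
    ((cls_card_le hbot htop).2.trans (Nat.mul_le_mul_right _ (card_units_le_norm hbot))))⟩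

/-- few characters have a small conductor -/
lemma small_cond {𝔮 : Ideal (𝓞 K)} (hbot : 𝔮 ≠ ⊥)
    (Z : ℝ) (hZ : 0 ≤ Z) (S : Finset (Ideal (𝓞 K) →*₀ ℂ))
    (hS : ∀ ψ ∈ S, ψ ∈ Fam 𝔮 ∧ (Ideal.absNorm (cd 𝔮 ψ) : ℝ) ≤ Z) :
    (S.card : ℝ) ≤ (dv 𝔮).ncard * (Z * hK K) := by
  classical
  have h1 := Finset.card_eq_sum_card_image (cd 𝔮) S
  rw [h1]
  push_cast
  have h2 : ∀ 𝔡 ∈ S.image (cd 𝔮), ((S.filter (fun ψ => cd 𝔮 ψ = 𝔡)).card : ℝ) ≤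
      Z * hK K := by
    intro 𝔡 h𝔡
    obtain ⟨ψ, hψ, rfl⟩ := Finset.mem_image.mp h𝔡
    obtain ⟨h3, h4⟩ := hS ψ hψ
    obtain ⟨h5, h6, h7⟩ := cd_spec h3
    obtain ⟨h8, h9⟩ := prim_card h7.ne_bot h6
    have h10 : (S.filter (fun ψ' => cd 𝔮 ψ' = cd 𝔮 ψ)).card ≤
        Ideal.absNorm (cd 𝔮 ψ) * hK K := by
      refine le_trans ?_ h9
      rw [Set.ncard_eq_toFinset_card _ h8]
      refine Finset.card_le_card fun ψ' hψ' => ?_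
      obtain ⟨h11, h12⟩ := Finset.mem_filter.mp hψ'
      rw [Set.Finite.mem_toFinset]
      have := (cd_spec (hS ψ' h11).1).2.2
      rw [h12] at this
      exact this
    have h13 : ((S.filter (fun ψ' => cd 𝔮 ψ' = cd 𝔮 ψ)).card : ℝ) ≤
        (Ideal.absNorm (cd 𝔮 ψ) : ℝ) * hK K := by exact_mod_cast h10
    exact h13.trans (mul_le_mul_of_nonneg_right h4 (Nat.cast_nonneg _))
  refine (Finset.sum_le_sum h2).trans ?_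
  rw [Finset.sum_const, nsmul_eq_mul]
  refine mul_le_mul_of_nonneg_right ?_ (by positivity)
  have h3 : (S.image (cd 𝔮)).card ≤ (dv 𝔮).ncard := by
    rw [Set.ncard_eq_toFinset_card _ (dv_finite hbot)]
    refine Finset.card_le_card fun 𝔡 h𝔡 => ?_
    obtain ⟨ψ, hψ, rfl⟩ := Finset.mem_image.mp h𝔡
    rw [Set.Finite.mem_toFinset]
    exact (cd_spec (hS ψ hψ).1).1
  exact_mod_cast h3

/-- a finset of pairs of ideals which contains all the pairs of different ideals of norm at most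
`M`, prime to `𝔮`, powers of prime ideals, and in the same narrow ray class modulo `𝔮` -/
def IsPr {𝔮 : Ideal (𝓞 K)} (htop : 𝔮 ≠ ⊤) (M : ℕ) (P : Finset (Mq 𝔮 × Mq 𝔮)) : Prop :=
  ∀ p : Mq 𝔮 × Mq 𝔮, p ∈ P ↔ (cls (pi1 htop) p.1 = cls (pi1 htop) p.2 ∧ p.1 ≠ p.2 ∧
    VM (p.1 : Ideal (𝓞 K)) ≠ 0 ∧ VM (p.2 : Ideal (𝓞 K)) ≠ 0 ∧
    Ideal.absNorm (p.1 : Ideal (𝓞 K)) ≤ M ∧ Ideal.absNorm (p.2 : Ideal (𝓞 K)) ≤ M)

lemma mem_IM_iff {M : ℕ} {𝔞 : Ideal (𝓞 K)} (h0 : 𝔞 ≠ ⊥) (h : Ideal.absNorm 𝔞 ≤ M) : 𝔞 ∈ IM K M := by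
  classical
  unfold IM
  rw [Finset.mem_biUnion]
  exact ⟨Ideal.absNorm 𝔞, Finset.mem_Icc.mpr ⟨absNorm_pos' h0, h⟩,
    (NN_finite (K := K) _).mem_toFinset.mpr rfl⟩

lemma exists_Pr {𝔮 : Ideal (𝓞 K)} (htop : 𝔮 ≠ ⊤) (M : ℕ) : ∃ P : Finset (Mq 𝔮 × Mq 𝔮),
    IsPr htop M P := by
  classical
  refine ⟨((((IM K M).subtype (fun 𝔞 => 𝔞 ∈ Mq 𝔮)) ×ˢ ((IM K M).subtype (fun 𝔞 => 𝔞 ∈ Mq 𝔮))).filter
    (fun p : Mq 𝔮 × Mq 𝔮 => cls (pi1 htop) p.1 = cls (pi1 htop) p.2 ∧ p.1 ≠ p.2 ∧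
    VM (p.1 : Ideal (𝓞 K)) ≠ 0 ∧ VM (p.2 : Ideal (𝓞 K)) ≠ 0)), fun p => ?_⟩
  rw [Finset.mem_filter, Finset.mem_product, Finset.mem_subtype, Finset.mem_subtype]
  constructor
  · rintro ⟨⟨h1, h2⟩, h3, h4, h5, h6⟩
    exact ⟨h3, h4, h5, h6, (mem_IM h1).2, (mem_IM h2).2⟩
  · rintro ⟨h3, h4, h5, h6, h7, h8⟩
    exact ⟨⟨mem_IM_iff (Mq_ne_bot htop _) h7, mem_IM_iff (Mq_ne_bot htop _) h8⟩, h3, h4, h5, h6⟩

/-- **the large sieve for the family** -/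
theorem ls_cc {𝔮 : Ideal (𝓞 K)} (hbot : 𝔮 ≠ ⊥) (htop : 𝔮 ≠ ⊤) (Y : Finset (Ideal (𝓞 K) →*₀ ℂ))
    (hY : ∀ ψ ∈ Y, ψ ∈ Fam 𝔮) {M : ℕ} (P : Finset (Mq 𝔮 × Mq 𝔮)) (hP : IsPr htop M P) (b : ℕ → ℂ)
    (B : ℝ) (hB : ∀ m : ℕ, 1 ≤ m → m ≤ M → ‖b m‖ * Real.log m ≤ B) :
    ∑ ψ ∈ Y, ‖∑ m ∈ Finset.Icc 1 M, b m * (if Nat.Coprime m (Ideal.absNorm 𝔮) then
      cc ψ m * (ArithmeticFunction.vonMangoldt m : ℂ) else 0)‖ ^ 2 ≤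
      Nat.card (Cls (pi1 htop)) * (∑ m ∈ Finset.Icc 1 M,
          ‖b m‖ ^ 2 * (ArithmeticFunction.vonMangoldt m * ‖cK K m‖) ^ 2 + P.card * B ^ 2) := by
  classical
  obtain ⟨b', hb'⟩ : ∃ b' : ℕ → ℂ, ∀ m, b' m = if Nat.Coprime m (Ideal.absNorm 𝔮) then b m else 0 :=
    ⟨_, fun _ => rfl⟩
  set S : Finset (Mq 𝔮) := ((IM K M).subtype (fun 𝔞 => 𝔞 ∈ Mq 𝔮)).filter
    (fun x => VM (x : Ideal (𝓞 K)) ≠ 0) with hS
  set a : Mq 𝔮 → ℂ := fun x => b' (Ideal.absNorm (x : Ideal (𝓞 K))) * (VM (x : Ideal (𝓞 K)) : ℂ)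
    with ha
  have h1 : ∀ ψ ∈ Y, ∑ m ∈ Finset.Icc 1 M, b m * (if Nat.Coprime m (Ideal.absNorm 𝔮) then
      cc ψ m * (ArithmeticFunction.vonMangoldt m : ℂ) else 0) =
      ∑ x ∈ S, a x * ((tM 𝔮 ψ x : ℂˣ) : ℂ) := by
    intro ψ hψ
    have h2 : ∑ x ∈ S, a x * ((tM 𝔮 ψ x : ℂˣ) : ℂ) = ∑ x ∈ (IM K M).subtype (fun 𝔞 => 𝔞 ∈ Mq 𝔮),
        (fun 𝔞 : Ideal (𝓞 K) => (b' (Ideal.absNorm 𝔞) * (VM 𝔞 : ℂ)) * ψ 𝔞) (x : Ideal (𝓞 K)) := by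
      rw [hS, Finset.sum_filter_of_ne]
      · refine Finset.sum_congr rfl fun x _ => ?_
        rw [tM_coe htop (hY ψ hψ)]
      · intro x _ hne hcon
        apply hne
        rw [ha]
        simp only
        rw [hcon]
        simp
    rw [h2]
    refine Eq.trans ?_ (Finset.sum_subtype_eq_sum_filter
      (fun 𝔞 : Ideal (𝓞 K) => (b' (Ideal.absNorm 𝔞) * (VM 𝔞 : ℂ)) * ψ 𝔞)).symm
    rw [Finset.sum_filter_of_ne, ← sum_cc]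
    · refine Finset.sum_congr rfl fun m _ => ?_
      rw [hb']
      split_ifs <;> simp
    · intro 𝔞 _ hne
      apply cop_of_norm
      by_contra hcon
      apply hne
      rw [hb', if_neg hcon]
      ring
  rw [Finset.sum_congr rfl fun ψ hψ => by rw [h1 ψ hψ]]
  have hinj : Set.InjOn (tM 𝔮) Y := fun ψ hψ ψ' hψ' h =>
    tM_inj hbot htop (hY ψ hψ) (hY ψ' hψ') h
  have hSm : ∀ x ∈ S, (x : Ideal (𝓞 K)) ∈ IM K M ∧ VM (x : Ideal (𝓞 K)) ≠ 0 := by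
    intro x hx
    rw [hS] at hx
    obtain ⟨h2, h3⟩ := Finset.mem_filter.mp hx
    exact ⟨Finset.mem_subtype.mp h2, h3⟩
  have h3 := ls hbot htop (Y.image (tM 𝔮)) (by
    intro F hF
    obtain ⟨ψ, hψ, rfl⟩ := Finset.mem_image.mp hF
    exact tM_mem htop (hY ψ hψ)) S P (by
    intro x hx y hy hxy hne
    exact (hP (x, y)).mpr ⟨hxy, hne, (hSm x hx).2, (hSm y hy).2, (mem_IM (hSm x hx).1).2,
      (mem_IM (hSm y hy).1).2⟩) a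
  rw [Finset.sum_image hinj] at h3
  refine h3.trans (mul_le_mul_of_nonneg_left (add_le_add ?_ ?_) (Nat.cast_nonneg _))
  · calc ∑ x ∈ S, ‖a x‖ ^ 2
        ≤ ∑ x ∈ (IM K M).subtype (fun 𝔞 => 𝔞 ∈ Mq 𝔮), ‖a x‖ ^ 2 :=
          Finset.sum_le_sum_of_subset_of_nonneg (Finset.filter_subset _ _)
            (fun _ _ _ => sq_nonneg _)
      _ = ∑ 𝔞 ∈ (IM K M).filter (fun 𝔞 => 𝔞 ∈ Mq 𝔮),
            ‖b' (Ideal.absNorm 𝔞) * (VM 𝔞 : ℂ)‖ ^ 2 :=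
          Finset.sum_subtype_eq_sum_filter
            (fun 𝔞 : Ideal (𝓞 K) => ‖b' (Ideal.absNorm 𝔞) * (VM 𝔞 : ℂ)‖ ^ 2)
      _ ≤ ∑ 𝔞 ∈ IM K M, ‖b' (Ideal.absNorm 𝔞) * (VM 𝔞 : ℂ)‖ ^ 2 :=
          Finset.sum_le_sum_of_subset_of_nonneg (Finset.filter_subset _ _)
            (fun _ _ _ => sq_nonneg _)
      _ ≤ ∑ m ∈ Finset.Icc 1 M, ‖b' m‖ ^ 2 * (ArithmeticFunction.vonMangoldt m * ‖cK K m‖) ^ 2 :=
          sum_sq M b'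
      _ ≤ _ := by
          refine Finset.sum_le_sum fun m _ => mul_le_mul_of_nonneg_right ?_ (sq_nonneg _)
          rw [hb']
          split_ifs
          · exact le_rfl
          · rw [norm_zero]
            exact (by norm_num : (0 : ℝ) ^ 2 ≤ 0).trans (sq_nonneg _)
  · have hax : ∀ x : Mq 𝔮, Ideal.absNorm (x : Ideal (𝓞 K)) ≤ M → ‖a x‖ ≤ B := by
      intro x hx
      have hx0 := absNorm_pos' (Mq_ne_bot htop x)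
      have h4 : ‖a x‖ ≤ ‖b (Ideal.absNorm (x : Ideal (𝓞 K)))‖ *
          Real.log (Ideal.absNorm (x : Ideal (𝓞 K))) := by
        rw [ha]
        simp only
        rw [norm_mul, Complex.norm_real, Real.norm_of_nonneg (Pool.Agent.Y772.DK.VM_nonneg _), hb']
        have h5 := Pool.Agent.Y772.DK.VM_le (Mq_ne_bot htop x)
        split_ifs
        · exact mul_le_mul_of_nonneg_left h5 (norm_nonneg _)
        · rw [norm_zero, zero_mul]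
          have : 0 ≤ Real.log (Ideal.absNorm (x : Ideal (𝓞 K))) := Real.log_nonneg (by exact_mod_cast hx0)
          positivity
      exact h4.trans (hB _ hx0 hx)
    calc ∑ p ∈ P, ‖a p.1‖ * ‖a p.2‖ ≤ ∑ _p ∈ P, B * B := by
          refine Finset.sum_le_sum fun p hp => ?_
          obtain ⟨-, -, -, -, h7, h8⟩ := (hP p).mp hp
          exact mul_le_mul (hax _ h7) (hax _ h8) (norm_nonneg _) ((norm_nonneg _).trans (hax _ h7))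
      _ = P.card * B ^ 2 := by
          rw [Finset.sum_const, nsmul_eq_mul, sq]

end

end Pool.Agent.Helper503_UI
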