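import Pool.Agent.Helper503_UI.Ray

/-! # The narrow ray class group modulo `𝔮`: bounds for the order, orthogonality -/

set_option autoImplicit false
set_option linter.unusedSectionVars false

open NumberField

namespace Pool.Agent.Helper503_UI

open Pool.Agent.Y773 (TPos)
open Pool.Agent.Y767 (Mq Mq_cop Mq_ne_bot Mq_cancel isUnit_mk coprime_of_isUnit Cls cls cls_eq
  cls_of_mul cls_pi cls_div ext_mon exists_lam card_dual finite_dual bes_cls Tq Tq_cop Tq_tp pq pq_coe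
  tpos_one tpos_mul tpos_of_mul)
open Pool.Agent.Y773.IQ (ne_zero_of_cop cop_mono cop_one cop_congr cop_mul exists_cop_lift
  exists_inv exists_mem_one exists_moving ofM' ofM'_pos ofM'_supp absNorm_pos' absNorm_lt cg)

section

variable {K : Type} [Field K] [NumberField K]

open Classical in
/-- the signs at the real places -/
noncomputable def sgv (x : 𝓞 K) (φ : K →+* ℂ) : Bool := decide (0 < (φ (x : K)).re)

lemma sgv_iff {x : 𝓞 K} (σ : K →+* ℝ) :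
    sgv x (Complex.ofRealHom.comp σ) = true ↔ 0 < σ (x : K) := by
  unfold sgv
  rw [decide_eq_true_iff, RingHom.comp_apply, Complex.ofRealHom_eq_coe, Complex.ofReal_re]

/-- the product of two integers with the same signs is totally positive -/
lemma tpos_of_sgv {x y : 𝓞 K} (hx : x ≠ 0) (hy : y ≠ 0) (h : sgv x = sgv y) :
    TPos K (x * y) := by
  intro σ
  have e : ((x * y : 𝓞 K) : K) = (x : K) * (y : K) := map_mul (algebraMap (𝓞 K) K) x y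
  rw [e, map_mul]
  have hx0 : σ (x : K) ≠ 0 := by
    rw [Ne, map_eq_zero, RingOfIntegers.coe_eq_zero_iff]; exact hx
  have hy0 : σ (y : K) ≠ 0 := by
    rw [Ne, map_eq_zero, RingOfIntegers.coe_eq_zero_iff]; exact hy
  have h1 : 0 < σ (x : K) ↔ 0 < σ (y : K) := by
    rw [← sgv_iff, ← sgv_iff, h]
  rcases lt_or_gt_of_ne hx0 with h2 | h2
  · have h3 : ¬ 0 < σ (y : K) := fun h4 => absurd (h1.mpr h4) (not_lt.mpr h2.le)
    exact mul_pos_of_neg_of_neg h2 (lt_of_le_of_ne (not_lt.mp h3) hy0)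
  · exact mul_pos h2 (h1.mp h2)

lemma cls_congr {𝔮 : Ideal (𝓞 K)} (hbot : 𝔮 ≠ ⊥) (htop : 𝔮 ≠ ⊤) {x y : 𝓞 K}
    (hx : IsCoprime (Ideal.span {x}) 𝔮)
    (hy : IsCoprime (Ideal.span {y}) 𝔮) (h : x - y ∈ 𝔮) (hs : sgv x = sgv y) :
    cls (pi1 htop) ⟨Ideal.span {x}, hx⟩ = cls (pi1 htop) ⟨Ideal.span {y}, hy⟩ := by
  have hx0 := ne_zero_of_cop htop hx
  have hy0 := ne_zero_of_cop htop hy
  obtain ⟨w0, hw0⟩ := exists_inv hx
  obtain ⟨v, v1, -, v2⟩ := lift_tpos hbot (w0 * w0)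
  have hw : (v * x) * x - 1 ∈ 𝔮 := by
    have : (v * x) * x - 1 = (v - w0 * w0) * (x * x) + (w0 * x + 1) * (w0 * x - 1) := by ring
    rw [this]; exact add_mem (Ideal.mul_mem_right _ _ v2) (Ideal.mul_mem_left _ _ hw0)
  have hw' : (v * x) * y - 1 ∈ 𝔮 := by
    have : (v * x) * y - 1 = ((v * x) * x - 1) - (v * x) * (x - y) := by ring
    rw [this]; exact sub_mem hw (Ideal.mul_mem_left _ _ h)
  have p1 : TPos K ((v * x) * x) := by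
    rw [mul_assoc]; exact tpos_mul v1 (tpos_of_sgv hx0 hx0 rfl)
  have p2 : TPos K ((v * x) * y) := by
    rw [mul_assoc]; exact tpos_mul v1 (tpos_of_sgv hx0 hy0 hs)
  refine cls_of_mul (π := pi1 htop) (a := ⟨(v * x) * y, hw', p2⟩) (b := ⟨(v * x) * x, hw, p1⟩) ?_
  apply Subtype.ext
  rw [Submonoid.coe_mul, Submonoid.coe_mul, pi1_coe, pi1_coe,
    Ideal.span_singleton_mul_span_singleton, Ideal.span_singleton_mul_span_singleton]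
  congr 2
  ring

lemma exists_compl {𝔮 : Ideal (𝓞 K)} (hbot : 𝔮 ≠ ⊥) (htop : 𝔮 ≠ ⊤) (𝔟 : Mq 𝔮) :
    ∃ (x : 𝓞 K) (𝔠 : Mq 𝔮), x - 1 ∈ 𝔮 ∧ TPos K x ∧
      Ideal.span {x} = (𝔟 : Ideal (𝓞 K)) * (𝔠 : Ideal (𝓞 K)) ∧
      cls (pi1 htop) 𝔟 * cls (pi1 htop) 𝔠 = 1 := by
  obtain ⟨x, 𝔠, h1, h0, h2, h3⟩ := mem_one_pos hbot htop (Mq_cop 𝔟)
  refine ⟨x, ⟨𝔠, h3⟩, h1, h0, h2, ?_⟩
  rw [← map_mul, ← cls_pi (pi1 htop) ⟨x, h1, h0⟩]
  congr 1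
  apply Subtype.ext
  rw [pi1_coe, Submonoid.coe_mul]
  exact h2.symm

lemma exists_rep {𝔮 : Ideal (𝓞 K)} (hbot : 𝔮 ≠ ⊥) (htop : 𝔮 ≠ ⊤) (c : Cls (pi1 htop)) :
    ∃ 𝔞 : Mq 𝔮, cls (pi1 htop) 𝔞 = c := by
  obtain ⟨a, b, hab⟩ := cls_div (pi1 htop) c
  obtain ⟨-, 𝔠, -, -, -, h⟩ := exists_compl hbot htop b
  refine ⟨a * 𝔠, ?_⟩
  rw [map_mul, ← hab, mul_assoc, h, mul_one]

lemma same_class {𝔮 : Ideal (𝓞 K)} (hbot : 𝔮 ≠ ⊥) (htop : 𝔮 ≠ ⊤) {𝔞 𝔟 : Mq 𝔮} {x y : 𝓞 K}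
    (hx : x ≠ 0)
    (h : Ideal.span {x} * (𝔞 : Ideal (𝓞 K)) = Ideal.span {y} * (𝔟 : Ideal (𝓞 K))) :
    ∃ (x' y' : 𝓞 K) (_ : x' - 1 ∈ 𝔮) (_ : TPos K x') (_ : IsCoprime (Ideal.span {y'}) 𝔮),
      Ideal.span {x'} * (𝔞 : Ideal (𝓞 K)) = Ideal.span {y'} * (𝔟 : Ideal (𝓞 K)) := by
  obtain ⟨x', 𝔠, h1, h0, h2, -⟩ := exists_compl hbot htop 𝔟
  have h3 : Ideal.span {x} * ((𝔞 : Ideal (𝓞 K)) * 𝔠) = Ideal.span {y * x'} := by
    rw [← mul_assoc, h, mul_assoc, ← h2, Ideal.span_singleton_mul_span_singleton]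
  have h4 : y * x' ∈ Ideal.span {x} := by
    have h5 : Ideal.span {y * x'} ≤ Ideal.span {x} := by
      rw [← h3]; exact Ideal.mul_le_left
    exact h5 (Ideal.mem_span_singleton_self _)
  obtain ⟨y', hy'⟩ := Ideal.mem_span_singleton'.mp h4
  have h6 : (𝔞 : Ideal (𝓞 K)) * 𝔠 = Ideal.span {y'} := by
    apply mul_left_cancel₀ (a := Ideal.span {x})
    · rw [Ne, Ideal.zero_eq_bot, Ideal.span_singleton_eq_bot]; exact hx
    · rw [h3, Ideal.span_singleton_mul_span_singleton, mul_comm x, hy']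
  refine ⟨x', y', h1, h0, ?_, ?_⟩
  · rw [← h6]; exact IsCoprime.mul_left (Mq_cop 𝔞) (Mq_cop 𝔠)
  · rw [h2, ← h6]; ring

lemma cls_same {𝔮 : Ideal (𝓞 K)} (htop : 𝔮 ≠ ⊤) {𝔞 𝔟 : Mq 𝔮} {x' y' : 𝓞 K} (hx' : x' - 1 ∈ 𝔮)
    (hp : TPos K x') (hy : IsCoprime (Ideal.span {y'}) 𝔮)
    (h : Ideal.span {x'} * (𝔞 : Ideal (𝓞 K)) = Ideal.span {y'} * (𝔟 : Ideal (𝓞 K))) :
    cls (pi1 htop) 𝔞 = cls (pi1 htop) ⟨Ideal.span {y'}, hy⟩ * cls (pi1 htop) 𝔟 := by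
  rw [← map_mul]
  have h1 : pi1 htop ⟨x', hx', hp⟩ * 𝔞 = ⟨Ideal.span {y'}, hy⟩ * 𝔟 := by
    apply Subtype.ext
    rw [Submonoid.coe_mul, Submonoid.coe_mul, pi1_coe]
    exact h
  rw [← h1, map_mul, cls_pi, one_mul]

lemma cg_eq' {𝔮 : Ideal (𝓞 K)} (hbot : 𝔮 ≠ ⊥) (htop : 𝔮 ≠ ⊤) {𝔞 𝔟 : Mq 𝔮}
    (h : cg htop 𝔞 = cg htop 𝔟) :
    ∃ (x' y' : 𝓞 K) (_ : x' - 1 ∈ 𝔮) (_ : TPos K x') (_ : IsCoprime (Ideal.span {y'}) 𝔮),
      Ideal.span {x'} * (𝔞 : Ideal (𝓞 K)) = Ideal.span {y'} * (𝔟 : Ideal (𝓞 K)) := by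
  unfold cg at h
  rw [ClassGroup.mk0_eq_mk0_iff] at h
  obtain ⟨x, y, hx, -, h1⟩ := h
  exact same_class hbot htop hx h1

/-- a bound for the narrow class number -/
noncomputable def hK (K : Type) [Field K] [NumberField K] : ℕ :=
  Nat.card (ClassGroup (𝓞 K)) * Nat.card ((K →+* ℂ) → Bool)

theorem cls_card_le {𝔮 : Ideal (𝓞 K)} (hbot : 𝔮 ≠ ⊥) (htop : 𝔮 ≠ ⊤) :
    Finite (Cls (pi1 htop)) ∧
      Nat.card (Cls (pi1 htop)) ≤ Nat.card (𝓞 K ⧸ 𝔮)ˣ * hK K := by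
  classical
  have : Finite (𝓞 K ⧸ 𝔮) := Ideal.finiteQuotientOfFreeOfNeBot 𝔮 hbot
  choose 𝔞 h𝔞 using exists_rep hbot htop
  obtain ⟨𝔟, h𝔟⟩ : ∃ 𝔟 : ClassGroup (𝓞 K) → Mq 𝔮, ∀ 𝔠 : Mq 𝔮, cg htop (𝔟 (cg htop 𝔠)) = cg htop 𝔠 := by
    refine ⟨fun C => if h : ∃ 𝔠 : Mq 𝔮, cg htop 𝔠 = C then h.choose else 1, fun 𝔠 => ?_⟩
    have h : ∃ 𝔠' : Mq 𝔮, cg htop 𝔠' = cg htop 𝔠 := ⟨𝔠, rfl⟩
    simp only [dif_pos h]
    exact h.choose_spec
  choose x' y' hx' hp' hy' hxy using fun c => cg_eq' hbot htop (h𝔟 (𝔞 c)).symm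
  have hinj : Function.Injective (fun c : Cls (pi1 htop) =>
      ((isUnit_mk (hy' c)).unit, cg htop (𝔞 c), sgv (y' c))) := by
    intro c c' h
    obtain ⟨h1, h23⟩ := Prod.ext_iff.mp h
    obtain ⟨h2, h3s⟩ := Prod.ext_iff.mp h23
    have h1' : (isUnit_mk (hy' c)).unit = (isUnit_mk (hy' c')).unit := h1
    have h2' : cg htop (𝔞 c) = cg htop (𝔞 c') := h2
    have h3' : sgv (y' c) = sgv (y' c') := h3s
    have h3 : y' c - y' c' ∈ 𝔮 := by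
      rw [← Ideal.Quotient.eq, ← IsUnit.unit_spec (isUnit_mk (hy' c)), h1', IsUnit.unit_spec]
    rw [← h𝔞 c, ← h𝔞 c', cls_same htop (hx' c) (hp' c) (hy' c) (hxy c),
      cls_same htop (hx' c') (hp' c') (hy' c') (hxy c'),
      cls_congr hbot htop (hy' c) (hy' c') h3 h3', h2']
  have hfin := Finite.of_injective _ hinj
  refine ⟨hfin, ?_⟩
  unfold hK
  rw [← Nat.card_prod, ← Nat.card_prod]
  exact Nat.card_le_card_of_injective _ hinj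

/-- the number of the residue classes which contain a unit -/
noncomputable def ku (𝔮 : Ideal (𝓞 K)) : ℕ :=
  (Set.range (fun u : (𝓞 K)ˣ => Ideal.Quotient.mk 𝔮 (u : 𝓞 K))).ncard

lemma ku_pos {𝔮 : Ideal (𝓞 K)} (hbot : 𝔮 ≠ ⊥) : 1 ≤ ku 𝔮 := by
  have : Finite (𝓞 K ⧸ 𝔮) := Ideal.finiteQuotientOfFreeOfNeBot 𝔮 hbot
  unfold ku
  exact (Set.ncard_pos (Set.toFinite _)).mpr ⟨_, 1, rfl⟩

theorem card_units_le {𝔮 : Ideal (𝓞 K)} (hbot : 𝔮 ≠ ⊥) (htop : 𝔮 ≠ ⊤) :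
    Nat.card (𝓞 K ⧸ 𝔮)ˣ ≤ ku 𝔮 * Nat.card (Cls (pi1 htop)) := by
  classical
  have : Finite (𝓞 K ⧸ 𝔮) := Ideal.finiteQuotientOfFreeOfNeBot 𝔮 hbot
  have := (cls_card_le hbot htop).1
  have := Fintype.ofFinite (𝓞 K ⧸ 𝔮)
  have := Fintype.ofFinite (𝓞 K ⧸ 𝔮)ˣ
  have := Fintype.ofFinite (Cls (pi1 htop))
  have := Mq_cancel htop
  have hx : ∀ g : (𝓞 K ⧸ 𝔮)ˣ, ∃ x : 𝓞 K, Ideal.Quotient.mk 𝔮 x = g ∧ TPos K x := by
    intro g
    obtain ⟨x, hx⟩ := Ideal.Quotient.mk_surjective (g : 𝓞 K ⧸ 𝔮)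
    obtain ⟨x', h1, -, h2⟩ := lift_tpos hbot x
    exact ⟨x', by rw [← hx, Ideal.Quotient.eq]; exact h2, h1⟩
  choose x hx hxp using hx
  have hc : ∀ g, IsCoprime (Ideal.span {x g}) 𝔮 := fun g => coprime_of_isUnit (by
    rw [hx]; exact g.isUnit)
  obtain ⟨U, hU⟩ : ∃ U : Finset (𝓞 K ⧸ 𝔮), (U : Set (𝓞 K ⧸ 𝔮)) =
      Set.range (fun u : (𝓞 K)ˣ => Ideal.Quotient.mk 𝔮 (u : 𝓞 K)) :=
    ⟨(Set.toFinite _).toFinset, Set.Finite.coe_toFinset _⟩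
  have hUc : U.card = ku 𝔮 := by
    unfold ku
    rw [← hU, Set.ncard_coe_finset]
  have h := Finset.card_le_mul_card_image
    (f := fun g : (𝓞 K ⧸ 𝔮)ˣ => cls (pi1 htop) ⟨Ideal.span {x g}, hc g⟩) Finset.univ
    (ku 𝔮) (by
      intro c hc'
      obtain ⟨g₀, -, hg₀⟩ := Finset.mem_image.mp hc'
      have h1 : (Finset.univ.filter (fun g : (𝓞 K ⧸ 𝔮)ˣ =>
          cls (pi1 htop) ⟨Ideal.span {x g}, hc g⟩ = c)).image
            (fun g : (𝓞 K ⧸ 𝔮)ˣ => (g : 𝓞 K ⧸ 𝔮)) ⊆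
          U.image (fun u => u * (g₀ : 𝓞 K ⧸ 𝔮)) := by
        intro z hz
        obtain ⟨g, hg, rfl⟩ := Finset.mem_image.mp hz
        have h2 := ((Finset.mem_filter.mp hg).2).trans hg₀.symm
        obtain ⟨a, b, hab⟩ := cls_eq h2
        have h3 := congrArg Subtype.val hab
        rw [Submonoid.coe_mul, Submonoid.coe_mul, pi1_coe, pi1_coe,
          Ideal.span_singleton_mul_span_singleton, Ideal.span_singleton_mul_span_singleton,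
          Ideal.span_singleton_eq_span_singleton] at h3
        obtain ⟨u, hu⟩ := h3.symm
        rw [Finset.mem_image]
        refine ⟨Ideal.Quotient.mk 𝔮 (u : 𝓞 K), ?_, ?_⟩
        · rw [← Finset.mem_coe, hU]
          exact ⟨u, rfl⟩
        · have ha := (Ideal.Quotient.eq (I := 𝔮)).mpr (T1_mem a)
          have hb := (Ideal.Quotient.eq (I := 𝔮)).mpr (T1_mem b)
          have h4 := congrArg (Ideal.Quotient.mk 𝔮) hu
          rw [map_mul, map_mul, map_mul, ha, hb, map_one, one_mul, one_mul, hx, hx] at h4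
          rw [mul_comm]
          exact h4
      have h5 : (Finset.univ.filter (fun g : (𝓞 K ⧸ 𝔮)ˣ =>
          cls (pi1 htop) ⟨Ideal.span {x g}, hc g⟩ = c)).card =
          ((Finset.univ.filter (fun g : (𝓞 K ⧸ 𝔮)ˣ =>
          cls (pi1 htop) ⟨Ideal.span {x g}, hc g⟩ = c)).image
            (fun g : (𝓞 K ⧸ 𝔮)ˣ => (g : 𝓞 K ⧸ 𝔮))).card :=
        (Finset.card_image_of_injective _ Units.val_injective).symm
      rw [h5, ← hUc]
      exact (Finset.card_le_card h1).trans Finset.card_image_le)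
  calc Nat.card (𝓞 K ⧸ 𝔮)ˣ = (Finset.univ : Finset (𝓞 K ⧸ 𝔮)ˣ).card := by
        rw [Nat.card_eq_fintype_card]; rfl
    _ ≤ _ := h
    _ ≤ ku 𝔮 * Nat.card (Cls (pi1 htop)) := by
        refine Nat.mul_le_mul_left _ ?_
        rw [Nat.card_eq_fintype_card]
        exact Finset.card_le_univ _

/-- the characters of the narrow ray class group modulo `𝔮` -/
def D1 {𝔮 : Ideal (𝓞 K)} (htop : 𝔮 ≠ ⊤) : Set (Mq 𝔮 →* ℂˣ) :=
  {F | ∀ x : T1 htop, F (pi1 htop x) = 1}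

lemma D1_card {𝔮 : Ideal (𝓞 K)} (hbot : 𝔮 ≠ ⊥) (htop : 𝔮 ≠ ⊤) :
    (D1 htop).Finite ∧ (D1 htop).ncard = Nat.card (Cls (pi1 htop)) := by
  have := (cls_card_le hbot htop).1
  have hfd := finite_dual (Cls (pi1 htop))
  have hsurj : D1 htop = Set.range (fun lam : Cls (pi1 htop) →* ℂˣ => lam.comp (cls (pi1 htop))) := by
    ext F
    constructor
    · intro hF
      obtain ⟨lam, hlam⟩ := exists_lam (pi1 htop) F 1 (fun a => by
        rw [hF a, MonoidHom.one_apply])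
      refine ⟨lam, ?_⟩
      ext x
      change ((lam (cls (pi1 htop) x) : ℂˣ) : ℂ) = F x
      rw [hlam x, MonoidHom.one_apply, one_mul]
    · rintro ⟨lam, rfl⟩ x
      change lam (cls (pi1 htop) (pi1 htop x)) = 1
      rw [cls_pi, map_one]
  have hinj : Function.Injective
      (fun lam : Cls (pi1 htop) →* ℂˣ => lam.comp (cls (pi1 htop))) := by
    intro l l' h
    refine MonoidHom.ext fun c => ?_
    obtain ⟨𝔞, rfl⟩ := exists_rep hbot htop c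
    exact DFunLike.congr_fun h 𝔞
  refine ⟨hsurj ▸ Set.finite_range _, ?_⟩
  rw [hsurj, ← Set.image_univ, Set.ncard_image_of_injective _ hinj, Set.ncard_univ, card_dual]

/-- the characters which are trivial on the principal ideals with totally positive generators -/
def D0 (𝔮 : Ideal (𝓞 K)) : Set (Mq 𝔮 →* ℂˣ) :=
  {F | ∀ (x : 𝓞 K) (hx : IsCoprime (Ideal.span {x}) 𝔮), TPos K x → F ⟨Ideal.span {x}, hx⟩ = 1}

lemma D0_sub {𝔮 : Ideal (𝓞 K)} (htop : 𝔮 ≠ ⊤) : D0 𝔮 ⊆ D1 htop := fun _ hF x =>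
  hF x (T1_cop x) (T1_pos x)

lemma D0_card {𝔮 : Ideal (𝓞 K)} (hbot : 𝔮 ≠ ⊥) (htop : 𝔮 ≠ ⊤) :
    (D0 𝔮).ncard ≤ hK K := by
  have hC := Mq_cancel htop
  have hrep : ∀ c : Cls (pq 𝔮), ∃ 𝔞 : Mq 𝔮, cls (pq 𝔮) 𝔞 = c := by
    intro c
    obtain ⟨a, b, hab⟩ := cls_div (pq 𝔮) c
    obtain ⟨x, 𝔠, h1, h0, h2, -⟩ := exists_compl hbot htop b
    refine ⟨a * 𝔠, ?_⟩
    have h3 : cls (pq 𝔮) (b * 𝔠) = 1 := by
      rw [← cls_pi (pq 𝔮) ⟨x, h0, cop_one h1⟩]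
      congr 1
      apply Subtype.ext
      rw [pq_coe, Submonoid.coe_mul]
      exact h2.symm
    rw [map_mul] at h3
    rw [map_mul, ← hab, mul_assoc, h3, mul_one]
  choose 𝔞 h𝔞 using hrep
  classical
  obtain ⟨𝔟, h𝔟⟩ : ∃ 𝔟 : ClassGroup (𝓞 K) → Mq 𝔮, ∀ 𝔠 : Mq 𝔮, cg htop (𝔟 (cg htop 𝔠)) = cg htop 𝔠 := by
    refine ⟨fun C => if h : ∃ 𝔠 : Mq 𝔮, cg htop 𝔠 = C then h.choose else 1, fun 𝔠 => ?_⟩
    have h : ∃ 𝔠' : Mq 𝔮, cg htop 𝔠' = cg htop 𝔠 := ⟨𝔠, rfl⟩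
    simp only [dif_pos h]
    exact h.choose_spec
  choose x' y' hx' hp' hy' hxy using fun c => cg_eq' hbot htop (h𝔟 (𝔞 c)).symm
  have hinj : Function.Injective (fun c => (cg htop (𝔞 c), sgv (y' c))) := by
    intro c c' h
    obtain ⟨h2, h3⟩ := Prod.ext_iff.mp h
    have h2' : cg htop (𝔞 c) = cg htop (𝔞 c') := h2
    have h3' : sgv (y' c) = sgv (y' c') := h3
    have e1 := hxy c
    have e2 := hxy c'
    rw [← h2'] at e2
    have hy0 := ne_zero_of_cop htop (hy' c)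
    have hy0' := ne_zero_of_cop htop (hy' c')
    have hp1 : TPos K (x' c * (y' c * y' c')) := tpos_mul (hp' c) (tpos_of_sgv hy0 hy0' h3')
    have hp2 : TPos K (x' c' * (y' c * y' c)) := tpos_mul (hp' c') (tpos_of_sgv hy0 hy0 rfl)
    have hc1 : IsCoprime (Ideal.span {x' c * (y' c * y' c')}) 𝔮 :=
      cop_mul (cop_one (hx' c)) (cop_mul (hy' c) (hy' c'))
    have hc2 : IsCoprime (Ideal.span {x' c' * (y' c * y' c)}) 𝔮 :=
      cop_mul (cop_one (hx' c')) (cop_mul (hy' c) (hy' c))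
    rw [← h𝔞 c, ← h𝔞 c']
    refine cls_of_mul (π := pq 𝔮) (a := ⟨x' c * (y' c * y' c'), hp1, hc1⟩)
      (b := ⟨x' c' * (y' c * y' c), hp2, hc2⟩) ?_
    apply Subtype.ext
    rw [Submonoid.coe_mul, Submonoid.coe_mul, pq_coe, pq_coe]
    change Ideal.span {x' c * (y' c * y' c')} * (𝔞 c : Ideal (𝓞 K)) =
      Ideal.span {x' c' * (y' c * y' c)} * (𝔞 c' : Ideal (𝓞 K))
    simp only [← Ideal.span_singleton_mul_span_singleton]
    calc Ideal.span {x' c} * (Ideal.span {y' c} * Ideal.span {y' c'}) * (𝔞 c : Ideal (𝓞 K)) =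
        (Ideal.span {x' c} * (𝔞 c : Ideal (𝓞 K))) * (Ideal.span {y' c} * Ideal.span {y' c'}) := by
          ring
      _ = (Ideal.span {y' c} * (𝔟 (cg htop (𝔞 c)) : Ideal (𝓞 K))) *
          (Ideal.span {y' c} * Ideal.span {y' c'}) := by rw [e1]
      _ = (Ideal.span {y' c'} * (𝔟 (cg htop (𝔞 c)) : Ideal (𝓞 K))) *
          (Ideal.span {y' c} * Ideal.span {y' c}) := by ring
      _ = (Ideal.span {x' c'} * (𝔞 c' : Ideal (𝓞 K))) *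
          (Ideal.span {y' c} * Ideal.span {y' c}) := by rw [e2]
      _ = _ := by ring
  have hfin : Finite (Cls (pq 𝔮)) := Finite.of_injective _ hinj
  have hcard : Nat.card (Cls (pq 𝔮)) ≤ hK K := by
    unfold hK
    rw [← Nat.card_prod]
    exact Nat.card_le_card_of_injective _ hinj
  have hfd := finite_dual (Cls (pq 𝔮))
  have hsub : D0 𝔮 ⊆ Set.range (fun lam : Cls (pq 𝔮) →* ℂˣ => lam.comp (cls (pq 𝔮))) := by
    intro F hF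
    obtain ⟨lam, hlam⟩ := exists_lam (pq 𝔮) F 1 (fun a => by
      rw [MonoidHom.one_apply]; exact hF a (Tq_cop a) (Tq_tp a))
    refine ⟨lam, ?_⟩
    ext x
    change ((lam (cls (pq 𝔮) x) : ℂˣ) : ℂ) = F x
    rw [hlam x, MonoidHom.one_apply, one_mul]
  refine (Set.ncard_le_ncard hsub (Set.finite_range _)).trans ?_
  rw [← Set.image_univ]
  refine (Set.ncard_image_le Set.finite_univ).trans ?_
  rw [Set.ncard_univ, card_dual]
  exact hcard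

/-- the large sieve, with the contribution of the pairs of different ideals in the same class -/
theorem ls {𝔮 : Ideal (𝓞 K)} (hbot : 𝔮 ≠ ⊥) (htop : 𝔮 ≠ ⊤) (Y : Finset (Mq 𝔮 →* ℂˣ))
    (hY : ∀ F ∈ Y, F ∈ D1 htop) (S : Finset (Mq 𝔮)) (P : Finset (Mq 𝔮 × Mq 𝔮))
    (hP : ∀ 𝔞 ∈ S, ∀ 𝔟 ∈ S, cls (pi1 htop) 𝔞 = cls (pi1 htop) 𝔟 → 𝔞 ≠ 𝔟 → (𝔞, 𝔟) ∈ P)
    (a : Mq 𝔮 → ℂ) :
    ∑ F ∈ Y, ‖∑ x ∈ S, a x * ((F x : ℂˣ) : ℂ)‖ ^ 2 ≤
      Nat.card (Cls (pi1 htop)) * (∑ x ∈ S, ‖a x‖ ^ 2 + ∑ p ∈ P, ‖a p.1‖ * ‖a p.2‖) := by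
  classical
  have := (cls_card_le hbot htop).1
  have := Fintype.ofFinite (Cls (pi1 htop))
  have := Mq_cancel htop
  have h := bes_cls Pool.Agent.Y287.HC.t_bes (pi1 htop) 1 Y (fun F hF x => by
    rw [hY F hF x, MonoidHom.one_apply]) S a
  refine h.trans ?_
  rw [Nat.card_eq_fintype_card]
  refine mul_le_mul_of_nonneg_left ?_ (Nat.cast_nonneg _)
  obtain ⟨f, hf⟩ : ∃ f : Mq 𝔮 → ℝ, ∀ x, f x = ‖a x‖ ^ 2 +
      ∑ y ∈ S.filter (fun y => cls (pi1 htop) y = cls (pi1 htop) x ∧ y ≠ x), ‖a x‖ * ‖a y‖ :=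
    ⟨_, fun _ => rfl⟩
  have h1 : ∀ c : Cls (pi1 htop), ‖∑ x ∈ S.filter (fun x => cls (pi1 htop) x = c),
      a x * (((1 : Mq 𝔮 →* ℂˣ) x : ℂˣ) : ℂ)‖ ^ 2 ≤
      ∑ x ∈ S.filter (fun x => cls (pi1 htop) x = c), f x := by
    intro c
    have h2 : ‖∑ x ∈ S.filter (fun x => cls (pi1 htop) x = c),
        a x * (((1 : Mq 𝔮 →* ℂˣ) x : ℂˣ) : ℂ)‖ ≤
        ∑ x ∈ S.filter (fun x => cls (pi1 htop) x = c), ‖a x‖ := by
      refine (norm_sum_le _ _).trans (le_of_eq (Finset.sum_congr rfl fun x _ => ?_))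
      rw [MonoidHom.one_apply, Units.val_one, mul_one]
    refine (pow_le_pow_left₀ (norm_nonneg _) h2 2).trans ?_
    rw [sq, Finset.sum_mul_sum]
    refine Finset.sum_le_sum fun x hx => ?_
    obtain ⟨hx1, hx2⟩ := Finset.mem_filter.mp hx
    rw [← Finset.add_sum_erase _ _ hx, hf]
    refine add_le_add (le_of_eq (by ring)) ?_
    refine Finset.sum_le_sum_of_subset_of_nonneg ?_ (fun _ _ _ => by positivity)
    intro y hy
    obtain ⟨hy1, hy2⟩ := Finset.mem_erase.mp hy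
    obtain ⟨hy3, hy4⟩ := Finset.mem_filter.mp hy2
    exact Finset.mem_filter.mpr ⟨hy3, hy4.trans hx2.symm, hy1⟩
  refine (Finset.sum_le_sum fun c _ => h1 c).trans ?_
  rw [Finset.sum_fiberwise S (cls (pi1 htop))]
  simp only [hf]
  rw [Finset.sum_add_distrib]
  refine add_le_add le_rfl ?_
  have h3 : ∑ x ∈ S, ∑ y ∈ S.filter (fun y => cls (pi1 htop) y = cls (pi1 htop) x ∧ y ≠ x),
      ‖a x‖ * ‖a y‖ = ∑ p ∈ (S ×ˢ S).filter (fun p => cls (pi1 htop) p.2 = cls (pi1 htop) p.1 ∧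
        p.2 ≠ p.1), ‖a p.1‖ * ‖a p.2‖ := by
    rw [Finset.sum_filter, Finset.sum_product]
    refine Finset.sum_congr rfl fun x _ => ?_
    rw [Finset.sum_filter]
  rw [h3]
  refine Finset.sum_le_sum_of_subset_of_nonneg ?_ (fun _ _ _ => by positivity)
  intro p hp
  obtain ⟨h4, h5, h6⟩ := Finset.mem_filter.mp hp
  obtain ⟨h7, h8⟩ := Finset.mem_product.mp h4
  exact hP p.1 h7 p.2 h8 h5.symm h6.symm

end

end Pool.Agent.Helper503_UI
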