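import Pool.Agent.Helper503_UI.Avg
import Pool.Agent.Helper503_UI.Cl
import Mathlib.GroupTheory.Schreier

/-! # Moduli with few residue classes of units -/

set_option autoImplicit false

open NumberField Ideal Filter Topology

namespace Pool.Agent.Helper503_UI

/-- the units modulo `𝔮` if `(𝓞 / 𝔮)ˣ` is killed by `k` on the units of `K` -/
lemma ku_le_pow (K : Type) [Field K] [NumberField K] : ∃ g : ℕ, ∀ (𝔮 : Ideal (𝓞 K)) (k : ℕ),
    1 ≤ k → (∀ u : (𝓞 K)ˣ, (u : 𝓞 K) ^ k - 1 ∈ 𝔮) → ku 𝔮 ≤ k ^ g := by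
  have hFG : Group.FG (𝓞 K)ˣ := Group.fg_iff_monoid_fg.mpr inferInstance
  refine ⟨Group.rank (𝓞 K)ˣ, fun 𝔮 k hk h => ?_⟩
  obtain ⟨φ, hφ⟩ : ∃ φ : (𝓞 K)ˣ →* (𝓞 K ⧸ 𝔮)ˣ, φ = Units.map (Ideal.Quotient.mk 𝔮).toMonoidHom :=
    ⟨_, rfl⟩
  have hφ1 : ∀ u, ((φ u : (𝓞 K ⧸ 𝔮)ˣ) : 𝓞 K ⧸ 𝔮) = Ideal.Quotient.mk 𝔮 (u : 𝓞 K) := by
    intro u; rw [hφ]; rfl
  have h1 : ∀ g : φ.range, g ^ k = 1 := by
    rintro ⟨g, u, rfl⟩
    apply Subtype.ext
    apply Units.ext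
    rw [SubmonoidClass.coe_pow, Units.val_pow_eq_pow_val, hφ1, ← map_pow, OneMemClass.coe_one,
      Units.val_one, ← map_one (Ideal.Quotient.mk 𝔮), Ideal.Quotient.eq]
    exact h u
  have hFG' : Group.FG φ.range := Group.fg_range φ
  have h2 := card_dvd_exponent_pow_rank' (G := φ.range) h1
  have h3 : Group.rank φ.range ≤ Group.rank (𝓞 K)ˣ := Group.rank_range_le
  have h4 : Nat.card φ.range ≤ k ^ Group.rank (𝓞 K)ˣ :=
    (Nat.le_of_dvd (Nat.pow_pos hk) h2).trans (Nat.pow_le_pow_right hk h3)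
  refine le_trans (le_of_eq ?_) h4
  unfold ku
  have h5 : Set.range (fun u : (𝓞 K)ˣ => Ideal.Quotient.mk 𝔮 (u : 𝓞 K)) =
      (fun v : (𝓞 K ⧸ 𝔮)ˣ => (v : 𝓞 K ⧸ 𝔮)) '' (φ.range : Set (𝓞 K ⧸ 𝔮)ˣ) := by
    ext x
    constructor
    · rintro ⟨u, rfl⟩
      exact ⟨φ u, ⟨u, rfl⟩, hφ1 u⟩
    · rintro ⟨v, ⟨u, rfl⟩, rfl⟩
      exact ⟨u, (hφ1 u).symm⟩
  rw [h5, Set.ncard_image_of_injective _ Units.val_injective, ← Nat.card_coe_set_eq]
  rfl

/-- **moduli with few residue classes of units** -/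
theorem exists_modulus (K : Type) [Field K] [NumberField K] (δ B : ℝ) (hδ : 0 < δ) (D₀ : ℕ)
    (hD₀ : D₀ ≠ 0) : ∃ 𝔮 : Ideal (𝓞 K), 𝔮 ≠ ⊥ ∧ B ≤ (absNorm 𝔮 : ℝ) ∧
      (ku 𝔮 : ℝ) ≤ (absNorm 𝔮 : ℝ) ^ δ ∧ Squarefree (absNorm 𝔮) ∧
      Nat.Coprime (absNorm 𝔮) D₀ := by
  classical
  obtain ⟨g, hg⟩ := ku_le_pow K
  have hl2 : 0 < Real.log 2 := Real.log_pos one_lt_two
  obtain ⟨C, hC⟩ : ∃ C : ℝ, C = max (g / δ) (|B| / Real.log 2) := ⟨_, rfl⟩
  have hC1 : g / δ ≤ C := by rw [hC]; exact le_max_left _ _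
  have hC2 : |B| / Real.log 2 ≤ C := by rw [hC]; exact le_max_right _ _
  have hC0 : 0 ≤ C := le_trans (by positivity) hC1
  obtain ⟨k, hk1, hk⟩ := exists_k K C hC0 (max D₀ 2)
  obtain ⟨F, hF⟩ : ∃ F : Finset ℕ, F = (Finset.Icc 1 (k + 1)).filter
    (fun p => IsPd K (max D₀ 2) p ∧ p - 1 ∣ k) := ⟨_, rfl⟩
  have hFs : fk K (max D₀ 2) k = ∑ p ∈ F, Real.log p := by
    rw [hF]; unfold fk; congr
  rw [hFs] at hk
  have hFp : ∀ p ∈ F, p.Prime ∧ D₀ < p ∧ 2 < p ∧ p - 1 ∣ k ∧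
      ∃ 𝔓 : Ideal (𝓞 K), absNorm 𝔓 = p := by
    intro p hp
    rw [hF] at hp
    obtain ⟨h1, h2, h3⟩ := Finset.mem_filter.mp hp
    obtain ⟨h4, h5, h6⟩ := h2
    exact ⟨h4, lt_of_le_of_lt (le_max_left _ _) h5, lt_of_le_of_lt (le_max_right _ _) h5, h3, h6⟩
  choose! 𝔓 h𝔓 using fun p (hp : p ∈ F) => (hFp p hp).2.2.2.2
  have hN : absNorm (∏ p ∈ F, 𝔓 p) = ∏ p ∈ F, p := by
    rw [map_prod]
    exact Finset.prod_congr rfl h𝔓
  have hNpos : 0 < ∏ p ∈ F, p := Finset.prod_pos fun p hp => (hFp p hp).1.pos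
  have hNlog : Real.log ((∏ p ∈ F, p : ℕ) : ℝ) = ∑ p ∈ F, Real.log p := by
    push_cast
    rw [Real.log_prod]
    intro p hp
    exact_mod_cast (hFp p hp).1.ne_zero
  -- `2 ≤ k`
  have hk2 : 2 ≤ k := by
    by_contra hcon
    have hk1' : k = 1 := by omega
    rw [hk1', Nat.cast_one, Real.log_one, mul_zero] at hk
    have : F = ∅ := by
      rw [Finset.eq_empty_iff_forall_notMem]
      intro p hp
      obtain ⟨h1, h2, h3, h4, -⟩ := hFp p hp
      rw [hk1'] at h4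
      have := Nat.le_of_dvd one_pos h4
      omega
    rw [this, Finset.sum_empty] at hk
    exact lt_irrefl _ hk
  have hk2' : (2 : ℝ) ≤ k := by exact_mod_cast hk2
  have hk0 : (0 : ℝ) < k := by linarith
  have hlogk : Real.log 2 ≤ Real.log k := Real.log_le_log two_pos hk2'
  rw [← hNlog] at hk
  have hNp : (0 : ℝ) < ((∏ p ∈ F, p : ℕ) : ℝ) := by exact_mod_cast hNpos
  refine ⟨∏ p ∈ F, 𝔓 p, ?_, ?_, ?_, ?_, ?_⟩
  · intro h
    rw [h, absNorm_bot] at hN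
    omega
  · rw [hN]
    rw [div_le_iff₀ hl2] at hC2
    have h1 := Real.log_le_sub_one_of_pos hNp
    have h2 : C * Real.log 2 ≤ C * Real.log k := mul_le_mul_of_nonneg_left hlogk hC0
    have h3 := le_abs_self B
    linarith
  · rw [hN]
    have hku := hg (∏ p ∈ F, 𝔓 p) k hk1 (by
      intro u
      rw [← Ideal.span_singleton_le_iff_mem, ← Ideal.dvd_iff_le]
      refine Finset.prod_dvd_of_coprime ?_ ?_
      · intro p hp q hq hpq
        have hp1 := hFp p hp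
        have hq1 := hFp q hq
        have hpc : Nat.Coprime p q := (Nat.coprime_primes hp1.1 hq1.1).mpr hpq
        have m1 := Ideal.absNorm_mem (𝔓 p)
        have m2 := Ideal.absNorm_mem (𝔓 q)
        rw [h𝔓 p hp] at m1
        rw [h𝔓 q hq] at m2
        obtain ⟨a, b, hab⟩ := Nat.isCoprime_iff_coprime.mpr hpc
        rw [Function.onFun, Ideal.isCoprime_iff_exists]
        refine ⟨(a : 𝓞 K) * (p : 𝓞 K), Ideal.mul_mem_left _ _ m1, (b : 𝓞 K) * (q : 𝓞 K),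
          Ideal.mul_mem_left _ _ m2, ?_⟩
        have := congrArg (fun z : ℤ => (z : 𝓞 K)) hab
        push_cast at this
        exact this
      · intro p hp
        obtain ⟨hp1, -, -, hp4, -⟩ := hFp p hp
        rw [Ideal.dvd_iff_le, Ideal.span_singleton_le_iff_mem]
        have hpr : (𝔓 p).IsPrime := isPrime_of_irreducible_absNorm (by rw [h𝔓 p hp]; exact hp1)
        have hbot : 𝔓 p ≠ ⊥ := by
          intro h
          have := h𝔓 p hp
          rw [h, absNorm_bot] at this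
          exact hp1.ne_zero this.symm
        have hmax : (𝔓 p).IsMaximal := hpr.isMaximal hbot
        have hfin : Finite (𝓞 K ⧸ 𝔓 p) := Ideal.finiteQuotientOfFreeOfNeBot _ hbot
        let _ : Field (𝓞 K ⧸ 𝔓 p) := Ideal.Quotient.field (𝔓 p)
        have hcard : Nat.card (𝓞 K ⧸ 𝔓 p) = p := by
          rw [← Submodule.cardQuot_apply, ← absNorm_apply, h𝔓 p hp]
        have := Fintype.ofFinite (𝓞 K ⧸ 𝔓 p)
        have hu : (Ideal.Quotient.mk (𝔓 p) (u : 𝓞 K)) ≠ 0 :=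
          (u.isUnit.map (Ideal.Quotient.mk (𝔓 p))).ne_zero
        have h5 := FiniteField.pow_card_sub_one_eq_one _ hu
        rw [← Nat.card_eq_fintype_card, hcard] at h5
        obtain ⟨c, hc⟩ := hp4
        rw [← Ideal.Quotient.eq, map_pow, map_one, hc, pow_mul, h5, one_pow])
    calc (ku (∏ p ∈ F, 𝔓 p) : ℝ) ≤ ((k ^ g : ℕ) : ℝ) := by exact_mod_cast hku
      _ = Real.exp (g * Real.log k) := by
          push_cast
          rw [← Real.log_pow, Real.exp_log (by positivity)]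
      _ ≤ Real.exp (δ * Real.log ((∏ p ∈ F, p : ℕ) : ℝ)) := by
          refine Real.exp_le_exp.mpr ?_
          rw [div_le_iff₀ hδ] at hC1
          have h1 : 0 ≤ Real.log k := by linarith
          calc (g : ℝ) * Real.log k ≤ (C * δ) * Real.log k := mul_le_mul_of_nonneg_right hC1 h1
            _ = δ * (C * Real.log k) := by ring
            _ ≤ _ := mul_le_mul_of_nonneg_left hk.le hδ.le
      _ = _ := by rw [Real.rpow_def_of_pos hNp, mul_comm]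
  · rw [hN]
    refine Finset.squarefree_prod_of_pairwise_isCoprime (fun p hp q hq hpq => ?_)
      (fun p hp => (hFp p hp).1.squarefree)
    exact Nat.coprime_iff_isRelPrime.mp ((Nat.coprime_primes (hFp p hp).1 (hFp q hq).1).mpr hpq)
  · rw [hN]
    refine Nat.Coprime.prod_left fun p hp => ?_
    obtain ⟨hp1, hp2, -⟩ := hFp p hp
    refine (Nat.Prime.coprime_iff_not_dvd hp1).mpr fun h => ?_
    have := Nat.le_of_dvd (Nat.pos_of_ne_zero hD₀) h
    omega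

end Pool.Agent.Helper503_UI
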