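import Pool.Agent.Helper503_UI.Cyc

/-! # Integers `k` such that many primes of degree one satisfy `p - 1 ∣ k` -/

set_option autoImplicit false

open NumberField Ideal Filter Topology

namespace Pool.Agent.Helper503_UI

open Classical in
theorem mertens_cyc (K : Type) [Field K] [NumberField K] (d y : ℕ) (hd : 1 ≤ d) (hy : d ≤ y) :
    ∃ x0 : ℕ, ∀ x : ℕ, x0 ≤ x →
    Real.log x ≤ 2 * (Module.finrank ℚ K * d.totient) *
      ∑ p ∈ ((Finset.Icc 1 x).filter (IsPd K y)).filter (fun p => d ∣ p - 1), Real.log p / p := by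
  have : NeZero d := ⟨by omega⟩
  have : NumberField (CyclotomicField d K) :=
    IsCyclotomicExtension.numberField {d} K (CyclotomicField d K)
  obtain ⟨x0, hx0⟩ := mertens_lower (CyclotomicField d K) y
  refine ⟨x0, fun x hx => (hx0 x hx).trans ?_⟩
  have h1 : (Module.finrank ℚ (CyclotomicField d K) : ℝ) ≤ Module.finrank ℚ K * d.totient := by
    exact_mod_cast finrank_cyc K (CyclotomicField d K) d
  have hnn : ∀ p : ℕ, 0 ≤ Real.log p / p := fun p =>
    div_nonneg (Real.log_natCast_nonneg _) (Nat.cast_nonneg _)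
  refine mul_le_mul (by linarith) ?_ (Finset.sum_nonneg fun p _ => hnn p) (by positivity)
  refine Finset.sum_le_sum_of_subset_of_nonneg ?_ (fun p _ _ => hnn p)
  intro p hp
  obtain ⟨h2, h3⟩ := Finset.mem_filter.mp hp
  obtain ⟨h4, h5⟩ := cyc_prime K (CyclotomicField d K) d hy h3
  exact Finset.mem_filter.mpr ⟨Finset.mem_filter.mpr ⟨h2, h5⟩, h4⟩

open Classical in
/-- the sum of the logarithms of the primes -/
noncomputable def fk (K : Type) [Field K] [NumberField K] (y k : ℕ) : ℝ :=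
  ∑ p ∈ (Finset.Icc 1 (k + 1)).filter (fun p => IsPd K y p ∧ p - 1 ∣ k), Real.log p

lemma sum_tot (m W : ℕ) (hW : W ≠ 0) :
    ∑ d ∈ W.divisors.filter (fun d => d ∣ m), d.totient ≤ Nat.gcd m W := by
  have h1 : W.divisors.filter (fun d => d ∣ m) ⊆ (Nat.gcd m W).divisors := by
    intro d hd
    obtain ⟨h2, h3⟩ := Finset.mem_filter.mp hd
    rw [Nat.mem_divisors]
    exact ⟨Nat.dvd_gcd h3 (Nat.dvd_of_mem_divisors h2), Nat.gcd_ne_zero_right hW⟩
  calc _ ≤ ∑ d ∈ (Nat.gcd m W).divisors, d.totient :=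
        Finset.sum_le_sum_of_subset_of_nonneg h1 (fun _ _ _ => Nat.zero_le _)
    _ = _ := Nat.sum_totient _

/-- the number of the multiples -/
lemma count_le (m W J : ℕ) (hm : 1 ≤ m) (_hW : W ≠ 0) :
    (J : ℝ) * (Nat.gcd m W : ℝ) / m - 1 ≤
      (((Finset.Icc 1 J).filter (fun j => m ∣ j * W)).card : ℝ) := by
  obtain ⟨g, hg⟩ : ∃ g, g = Nat.gcd m W := ⟨_, rfl⟩
  have hg0 : 0 < g := by rw [hg]; exact Nat.gcd_pos_of_pos_left _ hm
  obtain ⟨a, ha⟩ : g ∣ m := by rw [hg]; exact Nat.gcd_dvd_left _ _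
  obtain ⟨b, hb⟩ : g ∣ W := by rw [hg]; exact Nat.gcd_dvd_right _ _
  have ha0 : 0 < a := by
    rcases Nat.eq_zero_or_pos a with h | h
    · rw [h, mul_zero] at ha; omega
    · exact h
  rw [← hg]
  have h1 : (Finset.Icc 1 J).filter (fun j => a ∣ j) ⊆
      (Finset.Icc 1 J).filter (fun j => m ∣ j * W) := by
    intro j hj
    obtain ⟨h2, h3⟩ := Finset.mem_filter.mp hj
    refine Finset.mem_filter.mpr ⟨h2, ?_⟩
    obtain ⟨c, rfl⟩ := h3
    rw [ha, hb]
    exact ⟨c * b, by ring⟩
  have h2 : ((Finset.Icc 1 J).filter (fun j => a ∣ j)).card = J / a := by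
    have : Finset.Icc 1 J = Finset.Ioc 0 J := by
      ext j; rw [Finset.mem_Icc, Finset.mem_Ioc]; omega
    rw [this]
    exact Nat.Ioc_filter_dvd_card_eq_div J a
  have h3 := Finset.card_le_card h1
  rw [h2] at h3
  have h4 : (J : ℝ) / a - 1 ≤ ((J / a : ℕ) : ℝ) := by
    have ha' : (0 : ℝ) < a := by exact_mod_cast ha0
    have h5 : J < (J / a + 1) * a := by
      rw [mul_comm]
      exact Nat.lt_mul_div_succ J ha0
    have h6 : (J : ℝ) < ((J / a : ℕ) + 1) * a := by exact_mod_cast h5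
    rw [sub_le_iff_le_add, div_le_iff₀ ha']
    exact h6.le
  have h5 : (J : ℝ) * (g : ℝ) / m = (J : ℝ) / a := by
    rw [ha]
    push_cast
    have ha' : (a : ℝ) ≠ 0 := by exact_mod_cast ha0.ne'
    have hg' : (g : ℝ) ≠ 0 := by exact_mod_cast hg0.ne'
    field_simp
  rw [h5]
  exact h4.trans (by exact_mod_cast h3)

open Classical in
/-- **integers with many divisors of the form `p - 1`** -/
theorem exists_k (K : Type) [Field K] [NumberField K] (C : ℝ) (hC : 0 ≤ C) (y : ℕ) :
    ∃ k : ℕ, 1 ≤ k ∧ C * Real.log k < fk K y k := by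
  by_contra hcon
  push Not at hcon
  obtain ⟨n, hn⟩ : ∃ n : ℝ, n = Module.finrank ℚ K := ⟨_, rfl⟩
  have hn1 : 1 ≤ n := by
    have := Module.finrank_pos (R := ℚ) (M := K)
    rw [hn]; exact_mod_cast this
  obtain ⟨t, ht⟩ := exists_nat_ge (2 * n * (2 * C + 1))
  obtain ⟨W, hW⟩ : ∃ W : ℕ, W = 2 ^ t := ⟨_, rfl⟩
  have hW0 : W ≠ 0 := by rw [hW]; positivity
  have hW1 : 1 ≤ W := Nat.one_le_iff_ne_zero.mpr hW0
  have htau : (t : ℝ) ≤ W.divisors.card := by
    rw [hW, Nat.divisors_prime_pow Nat.prime_two, Finset.card_map, Finset.card_range]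
    push_cast; linarith
  obtain ⟨y', hy'⟩ : ∃ y' : ℕ, y' = max y W := ⟨_, rfl⟩
  have hyW : ∀ d ∈ W.divisors, 1 ≤ d ∧ d ≤ y' := by
    intro d hd
    have h1 := Nat.divisor_le hd
    have h2 := Nat.pos_of_mem_divisors hd
    exact ⟨h2, by rw [hy']; exact h1.trans (le_max_right _ _)⟩
  have hIs : ∀ p, IsPd K y' p → IsPd K y p := by
    rintro p ⟨h1, h2, h3⟩
    exact ⟨h1, lt_of_le_of_lt (by rw [hy']; exact le_max_left _ _) h2, h3⟩
  choose! x0 hx0 using fun d (hd : d ∈ W.divisors) =>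
    mertens_cyc K d y' (hyW d hd).1 (hyW d hd).2
  -- the inequality
  have hineq : ∀ x : ℕ, 1 ≤ x → (∀ d ∈ W.divisors, x0 d ≤ x) →
      Real.log x ≤ 1 + C * Real.log W := by
    intro x hx1 hxd
    obtain ⟨F, hF⟩ : ∃ F : Finset ℕ, F = (Finset.Icc 1 x).filter (IsPd K y') := ⟨_, rfl⟩
    obtain ⟨J, hJ⟩ : ∃ J : ℕ, J = x ^ 2 := ⟨_, rfl⟩
    have hx0' : (0 : ℝ) < x := by exact_mod_cast hx1
    have hx1' : (1 : ℝ) ≤ x := by exact_mod_cast hx1
    have hJ1 : 1 ≤ J := by rw [hJ]; exact Nat.one_le_pow _ _ hx1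
    have hJ0 : (0 : ℝ) < J := by exact_mod_cast hJ1
    have hlogx : 0 ≤ Real.log x := Real.log_nonneg hx1'
    have hFp : ∀ p ∈ F, IsPd K y' p ∧ 1 ≤ p ∧ p ≤ x := by
      intro p hp
      rw [hF] at hp
      obtain ⟨h1, h2⟩ := Finset.mem_filter.mp hp
      obtain ⟨h3, h4⟩ := Finset.mem_Icc.mp h1
      exact ⟨h2, h3, h4⟩
    -- upper bound
    have hup : ∑ j ∈ Finset.Icc 1 J, ∑ p ∈ F, (if p - 1 ∣ j * W then Real.log p else 0) ≤
        J * (C * (2 * Real.log x + Real.log W)) := by
      have h1 : ∀ j ∈ Finset.Icc 1 J,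
          ∑ p ∈ F, (if p - 1 ∣ j * W then Real.log p else 0) ≤
          C * (2 * Real.log x + Real.log W) := by
        intro j hj
        obtain ⟨hj1, hj2⟩ := Finset.mem_Icc.mp hj
        have hjW : 1 ≤ j * W := Nat.mul_pos hj1 hW1
        have h2 := hcon (j * W) hjW
        have h3 : ∑ p ∈ F, (if p - 1 ∣ j * W then Real.log p else 0) ≤ fk K y (j * W) := by
          rw [← Finset.sum_filter]
          unfold fk
          refine Finset.sum_le_sum_of_subset_of_nonneg ?_
            (fun p _ _ => Real.log_natCast_nonneg _)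
          intro p hp
          obtain ⟨h4, h5⟩ := Finset.mem_filter.mp hp
          obtain ⟨h6, h7, h8⟩ := hFp p h4
          have h9 := Nat.le_of_dvd hjW h5
          exact Finset.mem_filter.mpr ⟨Finset.mem_Icc.mpr ⟨h7, by omega⟩, hIs p h6, h5⟩
        refine (h3.trans h2).trans (mul_le_mul_of_nonneg_left ?_ hC)
        have h10 : ((j * W : ℕ) : ℝ) ≤ (x : ℝ) ^ 2 * W := by
          have : j * W ≤ x ^ 2 * W := Nat.mul_le_mul_right _ (by rw [← hJ]; exact hj2)
          exact_mod_cast this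
        have h11 : (0 : ℝ) < ((j * W : ℕ) : ℝ) := by exact_mod_cast hjW
        refine (Real.log_le_log h11 h10).trans (le_of_eq ?_)
        have hW' : (W : ℝ) ≠ 0 := by exact_mod_cast hW0
        rw [Real.log_mul (by positivity) hW', Real.log_pow]
        norm_num
      refine (Finset.sum_le_sum h1).trans (le_of_eq ?_)
      rw [Finset.sum_const, nsmul_eq_mul, Nat.card_Icc, Nat.add_sub_cancel]
    -- lower bound
    rw [Finset.sum_comm] at hup
    have hlow : (J : ℝ) * (∑ p ∈ F, Real.log p * (Nat.gcd (p - 1) W : ℝ) / p) - J ≤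
        ∑ p ∈ F, ∑ j ∈ Finset.Icc 1 J, (if p - 1 ∣ j * W then Real.log p else 0) := by
      have h1 : ∀ p ∈ F, (J : ℝ) * (Real.log p * (Nat.gcd (p - 1) W : ℝ) / p) - Real.log x ≤
          ∑ j ∈ Finset.Icc 1 J, (if p - 1 ∣ j * W then Real.log p else 0) := by
        intro p hp
        obtain ⟨h6, h7, h8⟩ := hFp p hp
        have hp2 := h6.1.two_le
        have hlp : 0 ≤ Real.log p := Real.log_natCast_nonneg _
        have hp0 : (0 : ℝ) < p := by exact_mod_cast h7
        have hlpx : Real.log p ≤ Real.log x := Real.log_le_log hp0 (by exact_mod_cast h8)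
        rw [← Finset.sum_filter, Finset.sum_const, nsmul_eq_mul]
        have h2 := count_le (p - 1) W J (by omega) hW0
        have h3 := mul_le_mul_of_nonneg_right h2 hlp
        have hp1 : (0 : ℝ) < ((p - 1 : ℕ) : ℝ) := by
          have : 0 < p - 1 := by omega
          exact_mod_cast this
        have hp1' : ((p - 1 : ℕ) : ℝ) ≤ p := by exact_mod_cast Nat.sub_le p 1
        have h4 : (J : ℝ) * (Nat.gcd (p - 1) W : ℝ) / p ≤
            (J : ℝ) * (Nat.gcd (p - 1) W : ℝ) / ((p - 1 : ℕ) : ℝ) :=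
          div_le_div_of_nonneg_left (by positivity) hp1 hp1'
        have h5 := mul_le_mul_of_nonneg_right h4 hlp
        calc (J : ℝ) * (Real.log p * (Nat.gcd (p - 1) W : ℝ) / p) - Real.log x ≤
            (J : ℝ) * (Nat.gcd (p - 1) W : ℝ) / p * Real.log p - Real.log p := by
              have e : (J : ℝ) * (Real.log p * (Nat.gcd (p - 1) W : ℝ) / p) =
                (J : ℝ) * (Nat.gcd (p - 1) W : ℝ) / p * Real.log p := by ring
              rw [e]; linarith
          _ ≤ (J : ℝ) * (Nat.gcd (p - 1) W : ℝ) / ((p - 1 : ℕ) : ℝ) * Real.log p - Real.log p := by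
              linarith
          _ = ((J : ℝ) * (Nat.gcd (p - 1) W : ℝ) / ((p - 1 : ℕ) : ℝ) - 1) * Real.log p := by ring
          _ ≤ _ := h3
      have h2 := Finset.sum_le_sum h1
      rw [Finset.sum_sub_distrib, ← Finset.mul_sum, Finset.sum_const, nsmul_eq_mul] at h2
      refine le_trans ?_ h2
      have h3 : (F.card : ℝ) ≤ x := by
        have : F.card ≤ x := by
          rw [hF]
          refine (Finset.card_filter_le _ _).trans ?_
          rw [Nat.card_Icc]; omega
        exact_mod_cast this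
      have h4 : (F.card : ℝ) * Real.log x ≤ J := by
        have h5 : Real.log x ≤ x := (Real.log_le_sub_one_of_pos hx0').trans (by linarith)
        calc (F.card : ℝ) * Real.log x ≤ x * x := mul_le_mul h3 h5 hlogx hx0'.le
          _ = J := by rw [hJ]; push_cast; ring
      linarith
    -- the divisors
    have hdiv : (t : ℝ) * Real.log x ≤
        2 * n * ∑ p ∈ F, Real.log p * (Nat.gcd (p - 1) W : ℝ) / p := by
      have h1 : ∀ d ∈ W.divisors, Real.log x ≤ 2 * n * ((d.totient : ℝ) *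
          ∑ p ∈ F.filter (fun p => d ∣ p - 1), Real.log p / p) := by
        intro d hd
        have h2 := hx0 d hd x (hxd d hd)
        rw [← hF, ← hn] at h2
        refine h2.trans (le_of_eq (by ring))
      have h2 := Finset.sum_le_sum h1
      rw [Finset.sum_const, nsmul_eq_mul, ← Finset.mul_sum] at h2
      refine (mul_le_mul_of_nonneg_right htau hlogx).trans (h2.trans ?_)
      refine mul_le_mul_of_nonneg_left ?_ (by positivity)
      have h3 : ∑ d ∈ W.divisors, (d.totient : ℝ) *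
          ∑ p ∈ F.filter (fun p => d ∣ p - 1), Real.log p / p =
          ∑ p ∈ F, (Real.log p / p) * ((∑ d ∈ W.divisors.filter (fun d => d ∣ p - 1),
            d.totient : ℕ) : ℝ) := by
        have e1 : ∀ d ∈ W.divisors, (d.totient : ℝ) *
            ∑ p ∈ F.filter (fun p => d ∣ p - 1), Real.log p / p =
            ∑ p ∈ F, (if d ∣ p - 1 then (d.totient : ℝ) * (Real.log p / p) else 0) := by
          intro d _
          rw [Finset.mul_sum, Finset.sum_filter]
        rw [Finset.sum_congr rfl e1, Finset.sum_comm]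
        refine Finset.sum_congr rfl fun p _ => ?_
        push_cast
        rw [Finset.mul_sum, Finset.sum_filter]
        refine Finset.sum_congr rfl fun d _ => ?_
        split_ifs
        · ring
        · rfl
      rw [h3]
      refine Finset.sum_le_sum fun p _ => ?_
      have h4 : ((∑ d ∈ W.divisors.filter (fun d => d ∣ p - 1), d.totient : ℕ) : ℝ) ≤
          (Nat.gcd (p - 1) W : ℝ) := by exact_mod_cast sum_tot (p - 1) W hW0
      have h5 : 0 ≤ Real.log p / p := div_nonneg (Real.log_natCast_nonneg _) (Nat.cast_nonneg _)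
      calc Real.log p / p * ((∑ d ∈ W.divisors.filter (fun d => d ∣ p - 1), d.totient : ℕ) : ℝ) ≤
          Real.log p / p * (Nat.gcd (p - 1) W : ℝ) := mul_le_mul_of_nonneg_left h4 h5
        _ = _ := by ring
    -- conclusion
    obtain ⟨S, hS⟩ : ∃ S : ℝ, S = ∑ p ∈ F, Real.log p * (Nat.gcd (p - 1) W : ℝ) / p := ⟨_, rfl⟩
    rw [← hS] at hdiv hlow
    have h1 : (J : ℝ) * S - J ≤ J * (C * (2 * Real.log x + Real.log W)) := hlow.trans hup
    have h2 : S ≤ 1 + C * (2 * Real.log x + Real.log W) := by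
      have h3 : (J : ℝ) * S ≤ J * (1 + C * (2 * Real.log x + Real.log W)) := by linarith
      exact le_of_mul_le_mul_left h3 hJ0
    have h3 : 2 * n * (2 * C + 1) * Real.log x ≤ 2 * n * (1 + C * (2 * Real.log x + Real.log W)) :=
      calc 2 * n * (2 * C + 1) * Real.log x ≤ t * Real.log x :=
            mul_le_mul_of_nonneg_right ht hlogx
        _ ≤ 2 * n * S := hdiv
        _ ≤ _ := mul_le_mul_of_nonneg_left h2 (by positivity)
    have h4 : (2 * C + 1) * Real.log x ≤ 1 + C * (2 * Real.log x + Real.log W) := by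
      have h5 : 0 < 2 * n := by positivity
      refine le_of_mul_le_mul_left ?_ h5
      linarith
    linarith
  -- a large `x`
  obtain ⟨x, hx⟩ := exists_nat_gt (Real.exp (1 + C * Real.log W))
  obtain ⟨x', hx'⟩ : ∃ x' : ℕ, x' = x + ∑ d ∈ W.divisors, x0 d + 1 := ⟨_, rfl⟩
  have h1 := hineq x' (by omega) (fun d hd => by
    have := Finset.single_le_sum (f := fun d => x0 d) (fun _ _ => Nat.zero_le _) hd
    omega)
  have h2 : (x : ℝ) ≤ x' := by
    have : x ≤ x' := by omega
    exact_mod_cast this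
  have h3 : Real.exp (1 + C * Real.log W) < x' := lt_of_lt_of_le hx h2
  have h4 : 1 + C * Real.log W < Real.log x' := by
    rw [Real.lt_log_iff_exp_lt (lt_trans (Real.exp_pos _) h3)]
    exact h3
  linarith

end Pool.Agent.Helper503_UI
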