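import Pool.Agent.Helper503_UI.Pairs

/-! # Counting the pairs of prime powers in the same ray class -/

set_option autoImplicit false
set_option linter.unusedSectionVars false

open NumberField

namespace Pool.Agent.Helper503_UI

open Pool.Agent.Y773 (TPos VM cc)
open Pool.Agent.Y767 (Mq Mq_cop Mq_ne_bot Mq_cancel Cls cls cls_eq cls_pi cK)
open Pool.Agent.Y773.IQ (ne_zero_of_cop cop_mono cop_one cop_congr cop_mul absNorm_pos' IM mem_IM)

section

variable {K : Type} [Field K] [NumberField K]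

lemma prime_eq {P Q : Ideal (𝓞 K)} (hP : Prime P) (hQ : Prime Q) {a b : ℕ} (ha : a ≠ 0)
    (h : P ^ a = Q ^ b) : P = Q := by
  have h1 : P ∣ Q ^ b := h ▸ dvd_pow_self P ha
  have h2 : P ∣ Q := hP.dvd_of_dvd_pow h1
  have h3 : Associated P Q := (hP.dvd_prime_iff_associated hQ).mp h2
  exact associated_iff_eq.mp h3

lemma cop_primes {P Q : Ideal (𝓞 K)} (hP : Prime P) (hQ : Prime Q) (h : P ≠ Q) :
    IsCoprime P Q := by
  have h1 : P.IsMaximal := (Ideal.isPrime_of_prime hP).isMaximal hP.ne_zero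
  have h2 : Q.IsMaximal := (Ideal.isPrime_of_prime hQ).isMaximal hQ.ne_zero
  rw [Ideal.isCoprime_iff_sup_eq]
  exact h1.coprime_of_ne h2 h

lemma two_le_absNorm {P : Ideal (𝓞 K)} (hP : Prime P) : 2 ≤ Ideal.absNorm P := by
  have h1 := absNorm_pos' hP.ne_zero
  have h2 : Ideal.absNorm P ≠ 1 := by
    rw [Ne, Ideal.absNorm_eq_one_iff, ← Ideal.one_eq_top]
    exact hP.ne_one
  omega

/-- **the number of the pairs** -/
theorem pair_count (K : Type) [Field K] [NumberField K] : ∃ C : ℝ, 1 ≤ C ∧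
    ∀ (𝔮 : Ideal (𝓞 K)) (_ : 𝔮 ≠ ⊥) (htop : 𝔮 ≠ ⊤) (M : ℕ), 1 ≤ M →
    ∀ P : Finset (Mq 𝔮 × Mq 𝔮), IsPr htop M P →
      (P.card : ℝ) ≤ C * ku 𝔮 * (1 + (M : ℝ) ^ 2 / (Ideal.absNorm 𝔮 : ℝ)) *
        (1 + Real.log M) := by
  classical
  obtain ⟨C, hC, hcop⟩ := cop_count K
  refine ⟨2 * C, by linarith, ?_⟩
  intro 𝔮 hbot htop M hM P hP
  have hcan := Mq_cancel htop
  obtain ⟨Q, hQ⟩ : ∃ Q : Finset (Mq 𝔮 × Mq 𝔮), ∀ p, p ∈ Q ↔
      (cls (pi1 htop) p.1 = cls (pi1 htop) p.2 ∧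
      IsCoprime (p.1 : Ideal (𝓞 K)) (p.2 : Ideal (𝓞 K)) ∧
      Ideal.absNorm (p.1 : Ideal (𝓞 K)) ≤ M ∧ Ideal.absNorm (p.2 : Ideal (𝓞 K)) ≤ M) := by
    refine ⟨((((IM K M).subtype (fun 𝔞 => 𝔞 ∈ Mq 𝔮)) ×ˢ
      ((IM K M).subtype (fun 𝔞 => 𝔞 ∈ Mq 𝔮))).filter
      (fun p : Mq 𝔮 × Mq 𝔮 => cls (pi1 htop) p.1 = cls (pi1 htop) p.2 ∧
        IsCoprime (p.1 : Ideal (𝓞 K)) (p.2 : Ideal (𝓞 K)))), fun p => ?_⟩
    rw [Finset.mem_filter, Finset.mem_product, Finset.mem_subtype, Finset.mem_subtype]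
    constructor
    · rintro ⟨⟨h1, h2⟩, h3, h4⟩
      exact ⟨h3, h4, (mem_IM h1).2, (mem_IM h2).2⟩
    · rintro ⟨h3, h4, h7, h8⟩
      exact ⟨⟨mem_IM_iff (Mq_ne_bot htop _) h7, mem_IM_iff (Mq_ne_bot htop _) h8⟩, h3, h4⟩
  have hQc := hcop 𝔮 hbot htop M (by exact_mod_cast hM) Q (by
    intro p hp
    obtain ⟨h1, h2, h3, h4⟩ := (hQ p).mp hp
    exact ⟨h1, h2, by exact_mod_cast h3, by exact_mod_cast h4⟩)
  -- the decomposition
  have hdec : ∀ p : Mq 𝔮 × Mq 𝔮, ∃ (q : Mq 𝔮 × Mq 𝔮) (j : ℕ) (𝔭 : Ideal (𝓞 K)), p ∈ P →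
      q ∈ Q ∧ j ∈ Finset.range (Nat.log 2 M + 1) ∧ (p.1 : Ideal (𝓞 K)) = q.1 * 𝔭 ^ j ∧
      (p.2 : Ideal (𝓞 K)) = q.2 * 𝔭 ^ j ∧
      (j = 0 ∨ (Prime 𝔭 ∧ ∃ m : ℕ, m ≠ 0 ∧ (q.1 : Ideal (𝓞 K)) * q.2 = 𝔭 ^ m)) := by
    intro p
    by_cases hp : p ∈ P
    swap
    · exact ⟨p, 0, ⊤, fun h => absurd h hp⟩
    obtain ⟨h1, h2, h3, h4, h5, h6⟩ := (hP p).mp hp
    have g1 : IsPrimePow (p.1 : Ideal (𝓞 K)) := by
      by_contra hcon
      exact h3 (Pool.Agent.Y772.DK.VM_of_not hcon)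
    have g2 : IsPrimePow (p.2 : Ideal (𝓞 K)) := by
      by_contra hcon
      exact h4 (Pool.Agent.Y772.DK.VM_of_not hcon)
    obtain ⟨𝔭₁, i, hp1, hi, e1⟩ := g1
    obtain ⟨𝔭₂, j, hp2, hj, e2⟩ := g2
    by_cases h12 : 𝔭₁ = 𝔭₂
    swap
    · refine ⟨p, 0, ⊤, fun _ => ⟨(hQ p).mpr ⟨h1, ?_, h5, h6⟩, ?_, by simp, by simp, Or.inl rfl⟩⟩
      · rw [← e1, ← e2]
        exact (cop_primes hp1 hp2 h12).pow
      · exact Finset.mem_range.mpr (Nat.succ_pos _)
    subst h12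
    have hNp := two_le_absNorm hp1
    have hij : i ≠ j := by
      rintro rfl
      apply h2
      exact Subtype.ext (e1.symm.trans e2)
    have hpow : ∀ k : ℕ, k ≠ 0 → Ideal.absNorm (𝔭₁ ^ k) ≤ M → k ∈ Finset.range (Nat.log 2 M + 1) := by
      intro k _ hk
      rw [map_pow] at hk
      rw [Finset.mem_range]
      have : 2 ^ k ≤ M := (Nat.pow_le_pow_left hNp k).trans hk
      exact Nat.lt_succ_of_le (Nat.le_log_of_pow_le (by norm_num) this)
    have hcop𝔭 : IsCoprime 𝔭₁ 𝔮 := by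
      have := Mq_cop p.1
      rw [← e1] at this
      exact (IsCoprime.pow_left_iff hi).mp this
    have hmem : ∀ k : ℕ, 𝔭₁ ^ k ∈ Mq 𝔮 := fun k => by
      have : IsCoprime (𝔭₁ ^ k) 𝔮 := hcop𝔭.pow_left
      exact this
    rcases lt_or_gt_of_ne hij with hlt | hlt
    · -- i < j
      refine ⟨(1, ⟨𝔭₁ ^ (j - i), hmem _⟩), i, 𝔭₁, fun _ => ⟨(hQ _).mpr ⟨?_, ?_, ?_, ?_⟩, ?_, ?_, ?_,
        Or.inr ⟨hp1, j - i, by omega, ?_⟩⟩⟩
      · have e3 : p.2 = p.1 * ⟨𝔭₁ ^ (j - i), hmem _⟩ := by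
          apply Subtype.ext
          rw [Submonoid.coe_mul, ← e1, ← e2, ← pow_add]
          congr 1
          omega
        rw [e3, map_mul] at h1
        have := mul_left_cancel ((mul_one _).trans h1)
        rw [map_one]
        exact this
      · rw [Submonoid.coe_one]; exact isCoprime_one_left
      · rw [Submonoid.coe_one, map_one]; exact hM
      · rw [← e2] at h6
        refine le_trans ?_ h6
        rw [map_pow, map_pow]
        exact Nat.pow_le_pow_right (by omega) (Nat.sub_le _ _)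
      · rw [← e1] at h5
        exact hpow i hi.ne' h5
      · rw [Submonoid.coe_one, one_mul, e1]
      · rw [← e2, ← pow_add]
        congr 1
        omega
      · rw [Submonoid.coe_one, one_mul]
    · -- j < i
      refine ⟨(⟨𝔭₁ ^ (i - j), hmem _⟩, 1), j, 𝔭₁, fun _ => ⟨(hQ _).mpr ⟨?_, ?_, ?_, ?_⟩, ?_, ?_, ?_,
        Or.inr ⟨hp1, i - j, by omega, ?_⟩⟩⟩
      · have e3 : p.1 = p.2 * ⟨𝔭₁ ^ (i - j), hmem _⟩ := by
          apply Subtype.ext
          rw [Submonoid.coe_mul, ← e1, ← e2, ← pow_add]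
          congr 1
          omega
        rw [e3, map_mul] at h1
        have := mul_left_cancel (h1.trans (mul_one _).symm)
        rw [map_one]
        exact this
      · rw [Submonoid.coe_one]; exact isCoprime_one_right
      · rw [← e1] at h5
        refine le_trans ?_ h5
        rw [map_pow, map_pow]
        exact Nat.pow_le_pow_right (by omega) (Nat.sub_le _ _)
      · rw [Submonoid.coe_one, map_one]; exact hM
      · rw [← e2] at h6
        exact hpow j hj.ne' h6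
      · rw [← e1, ← pow_add]
        congr 1
        omega
      · rw [Submonoid.coe_one, one_mul, e2]
      · rw [Submonoid.coe_one, mul_one]
  choose q j 𝔭 hdec using hdec
  have hinj : Set.InjOn (fun p => (q p, j p)) (P : Set (Mq 𝔮 × Mq 𝔮)) := by
    intro p hp p' hp' h
    obtain ⟨h1, h2⟩ := Prod.ext_iff.mp h
    simp only at h1 h2
    obtain ⟨-, -, a1, a2, a3⟩ := hdec p hp
    obtain ⟨-, -, b1, b2, b3⟩ := hdec p' hp'
    have key : 𝔭 p ^ j p = 𝔭 p' ^ j p' := by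
      rw [← h2]
      rcases a3 with a3 | ⟨a3, m, hm, a4⟩
      · rw [a3, pow_zero, pow_zero]
      · rcases b3 with b3 | ⟨b3, m', hm', b4⟩
        · rw [h2, b3, pow_zero, pow_zero]
        · rw [← h1, a4] at b4
          rw [prime_eq a3 b3 hm b4]
    apply Prod.ext
    · apply Subtype.ext
      rw [a1, b1, h1, key]
    · apply Subtype.ext
      rw [a2, b2, h1, key]
  have hsub : P.image (fun p => (q p, j p)) ⊆ Q ×ˢ Finset.range (Nat.log 2 M + 1) := by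
    intro b hb
    obtain ⟨p, hp, rfl⟩ := Finset.mem_image.mp hb
    obtain ⟨h1, h2, -⟩ := hdec p hp
    exact Finset.mem_product.mpr ⟨h1, h2⟩
  have h1 := Finset.card_le_card hsub
  rw [Finset.card_image_of_injOn hinj, Finset.card_product, Finset.card_range] at h1
  have hlog : ((Nat.log 2 M + 1 : ℕ) : ℝ) ≤ 2 * (1 + Real.log M) := by
    have h2 : ((2 : ℕ) : ℝ) ^ Nat.log 2 M ≤ (M : ℝ) := by
      exact_mod_cast Nat.pow_log_le_self 2 (by omega)
    have h3 := Real.log_le_log (by positivity) h2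
    rw [Real.log_pow] at h3
    push_cast at h3 ⊢
    have h4 : (0.6931 : ℝ) ≤ Real.log 2 := by
      have := Real.log_two_gt_d9
      linarith
    have h5 : (0 : ℝ) ≤ (Nat.log 2 M : ℝ) := Nat.cast_nonneg _
    nlinarith
  have hM0 : 0 ≤ Real.log M := Real.log_natCast_nonneg _
  calc (P.card : ℝ) ≤ ((Q.card * (Nat.log 2 M + 1) : ℕ) : ℝ) := by exact_mod_cast h1
    _ = (Q.card : ℝ) * ((Nat.log 2 M + 1 : ℕ) : ℝ) := by push_cast; ring
    _ ≤ (C * ku 𝔮 * (1 + (M : ℝ) ^ 2 / (Ideal.absNorm 𝔮 : ℝ))) * (2 * (1 + Real.log M)) :=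
        mul_le_mul hQc hlog (Nat.cast_nonneg _) (by positivity)
    _ = _ := by ring

end

end Pool.Agent.Helper503_UI
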