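import Pool.Agent.Helper503_UI.Mer
import Mathlib.NumberTheory.NumberField.Cyclotomic.Basic

/-! # Primes of degree one of cyclotomic extensions -/

set_option autoImplicit false

open NumberField Ideal

namespace Pool.Agent.Helper503_UI

lemma finrank_cyc (K L : Type) [Field K] [NumberField K] [Field L] [NumberField L] [Algebra K L]
    (d : ℕ) [NeZero d] [IsCyclotomicExtension {d} K L] :
    Module.finrank ℚ L ≤ Module.finrank ℚ K * d.totient := by
  rw [← Module.finrank_mul_finrank ℚ K L]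
  refine Nat.mul_le_mul_left _ ?_
  have hζ := IsCyclotomicExtension.zeta_spec d K L
  rw [(hζ.powerBasis K).finrank, IsPrimitiveRoot.powerBasis_dim]
  rw [← Polynomial.natDegree_cyclotomic d K]
  refine Polynomial.natDegree_le_of_dvd ?_ (Polynomial.cyclotomic_ne_zero d K)
  refine minpoly.dvd K _ ?_
  rw [Polynomial.aeval_def, ← Polynomial.eval_map, Polynomial.map_cyclotomic]
  exact (hζ.isRoot_cyclotomic (NeZero.pos d))

lemma cyc_prime (K L : Type) [Field K] [NumberField K] [Field L] [NumberField L] [Algebra K L]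
    (d : ℕ) [NeZero d] [IsCyclotomicExtension {d} K L] {y p : ℕ} (hy : d ≤ y)
    (h : IsPd L y p) : d ∣ p - 1 ∧ IsPd K y p := by
  obtain ⟨hp, hyp, 𝔓, h𝔓⟩ := h
  have hpr : 𝔓.IsPrime := isPrime_of_irreducible_absNorm (by rw [h𝔓]; exact hp)
  have hbot : 𝔓 ≠ ⊥ := by
    rintro rfl
    rw [absNorm_bot] at h𝔓
    exact hp.ne_zero h𝔓.symm
  have hmax : 𝔓.IsMaximal := hpr.isMaximal hbot
  have hfin : Finite (𝓞 L ⧸ 𝔓) := Ideal.finiteQuotientOfFreeOfNeBot 𝔓 hbot
  let _ : Field (𝓞 L ⧸ 𝔓) := Ideal.Quotient.field 𝔓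
  have hcard : Nat.card (𝓞 L ⧸ 𝔓) = p := by
    rw [← h𝔓, absNorm_apply, Submodule.cardQuot_apply]
  have := Fintype.ofFinite (𝓞 L ⧸ 𝔓)
  constructor
  · have hζ := IsCyclotomicExtension.zeta_spec d K L
    have hζ' := hζ.toInteger_isPrimitiveRoot
    have hd : (d : 𝓞 L ⧸ 𝔓) ≠ 0 := by
      intro h0
      have h1 : (p : 𝓞 L ⧸ 𝔓) = 0 := by
        have := Ideal.absNorm_mem 𝔓
        rwa [h𝔓, ← Ideal.Quotient.eq_zero_iff_mem, map_natCast] at this
      have hcop : Nat.Coprime d p := by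
        rw [Nat.coprime_comm]
        refine (Nat.Prime.coprime_iff_not_dvd hp).mpr fun h2 => ?_
        have := Nat.le_of_dvd (NeZero.pos d) h2
        omega
      have h2 : ((1 : ℤ) : 𝓞 L ⧸ 𝔓) = 0 := by
        have h3 := Nat.isCoprime_iff_coprime.mpr hcop
        obtain ⟨a, b, hab⟩ := h3
        rw [← hab]
        push_cast
        rw [h0, h1]
        ring
      rw [Int.cast_one] at h2
      exact one_ne_zero h2
    have hne : NeZero (d : 𝓞 L ⧸ 𝔓) := ⟨hd⟩
    have h1 : Polynomial.IsRoot (Polynomial.cyclotomic d (𝓞 L ⧸ 𝔓))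
        (Ideal.Quotient.mk 𝔓 hζ.toInteger) := by
      have h2 := hζ'.isRoot_cyclotomic (NeZero.pos d)
      have h3 := h2.map (f := Ideal.Quotient.mk 𝔓)
      rwa [Polynomial.map_cyclotomic] at h3
    rw [Polynomial.isRoot_cyclotomic_iff] at h1
    refine h1.dvd_of_pow_eq_one _ ?_
    have h4 : (Ideal.Quotient.mk 𝔓 hζ.toInteger) ≠ 0 := h1.ne_zero (NeZero.ne d)
    have h5 := FiniteField.pow_card_sub_one_eq_one _ h4
    rwa [← Nat.card_eq_fintype_card, hcard] at h5
  · refine ⟨hp, hyp, 𝔓.comap (algebraMap (𝓞 K) (𝓞 L)), ?_⟩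
    have hinj : Function.Injective (Ideal.quotientMap 𝔓 (algebraMap (𝓞 K) (𝓞 L))
        (le_refl (𝔓.comap (algebraMap (𝓞 K) (𝓞 L))))) := Ideal.quotientMap_injective
    have h1 := AddSubgroup.card_dvd_of_injective
      (Ideal.quotientMap 𝔓 (algebraMap (𝓞 K) (𝓞 L))
        (le_refl (𝔓.comap (algebraMap (𝓞 K) (𝓞 L))))).toAddMonoidHom hinj
    rw [hcard, Nat.dvd_prime hp] at h1
    rw [absNorm_apply, Submodule.cardQuot_apply]
    rcases h1 with h1 | h1
    · exfalso
      have h2 : absNorm (𝔓.comap (algebraMap (𝓞 K) (𝓞 L))) = 1 := by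
        rw [absNorm_apply, Submodule.cardQuot_apply]; exact h1
      rw [absNorm_eq_one_iff] at h2
      exact (Ideal.comap_ne_top _ hpr.ne_top) h2
    · exact h1

end Pool.Agent.Helper503_UI
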