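import Mathlib

/-!
# Geometry of numbers for units and ideals

* `box_count` : the number of the elements of an ideal `𝔮` all of whose absolute values are at most
  `R` is at most `C (1 + R^n / N𝔮)`, `n` the degree of the field.
* `balanced` : every nonzero algebraic integer has an associate all of whose absolute values are
  of the order of magnitude of the `n`-th root of its norm.
-/

set_option autoImplicit false
set_option linter.unusedSectionVars false

open NumberField NumberField.InfinitePlace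

namespace Pool.Agent.Helper503_UI

section

variable (K : Type) [Field K] [NumberField K]

/-- the coordinates of an element of `K` -/
noncomputable def crd (x : K) (i : (w : InfinitePlace K) × Fin w.mult) : ℝ :=
  if (i.2 : ℕ) = 0 then (i.1.embedding x).re else (i.1.embedding x).im

lemma crd_sub (x y : K) (i : (w : InfinitePlace K) × Fin w.mult) :
    crd K (x - y) i = crd K x i - crd K y i := by
  unfold crd
  split_ifs <;> simp

lemma abs_crd_le (x : K) (i : (w : InfinitePlace K) × Fin w.mult) : |crd K x i| ≤ i.1 x := by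
  unfold crd
  rw [← norm_embedding_eq]
  split_ifs
  · exact Complex.abs_re_le_norm _
  · exact Complex.abs_im_le_norm _

lemma mult_cases (w : InfinitePlace K) : (w.IsReal ∧ w.mult = 1) ∨ (w.IsComplex ∧ w.mult = 2) := by
  rcases w.isReal_or_isComplex with h | h
  · exact Or.inl ⟨h, mult_isReal ⟨w, h⟩⟩
  · exact Or.inr ⟨h, mult_isComplex ⟨w, h⟩⟩

lemma place_lt {x : K} {s : ℝ} (hs : 0 < s) (h : ∀ i, |crd K x i| < s) (w : InfinitePlace K) :
    w x < 2 * s := by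
  rw [← norm_embedding_eq]
  refine (Complex.norm_le_abs_re_add_abs_im _).trans_lt ?_
  rcases mult_cases K w with ⟨h1, h2⟩ | ⟨h1, h2⟩
  · have a1 := h ⟨w, ⟨0, by rw [h2]; norm_num⟩⟩
    unfold crd at a1
    simp only [if_true] at a1
    have a2 : (w.embedding x).im = 0 := by
      rw [← embedding_of_isReal_apply h1, Complex.ofReal_im]
    rw [a2, abs_zero]
    linarith
  · have a1 := h ⟨w, ⟨0, by rw [h2]; norm_num⟩⟩
    have a2 := h ⟨w, ⟨1, by rw [h2]; norm_num⟩⟩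
    unfold crd at a1 a2
    simp only [if_true, one_ne_zero, if_false] at a1 a2
    linarith

lemma card_crd : Fintype.card ((w : InfinitePlace K) × Fin w.mult) = Module.finrank ℚ K := by
  rw [Fintype.card_sigma]
  simp only [Fintype.card_fin]
  exact sum_mult_eq

lemma absNorm_span (x : 𝓞 K) : (Ideal.absNorm (Ideal.span {x}) : ℝ) =
    ∏ w : InfinitePlace K, w (x : K) ^ w.mult := by
  rw [prod_eq_abs_norm, Ideal.absNorm_span_singleton, ← Algebra.coe_norm_int, Nat.cast_natAbs]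
  push_cast
  rfl

lemma prod_place_le {x : K} {s : ℝ} (h : ∀ w : InfinitePlace K, w x ≤ s) :
    ∏ w : InfinitePlace K, w x ^ w.mult ≤ s ^ Module.finrank ℚ K := by
  rw [← sum_mult_eq (K := K), ← Finset.prod_pow_eq_pow_sum]
  exact Finset.prod_le_prod (fun w _ => pow_nonneg (apply_nonneg w x) _)
    (fun w _ => pow_le_pow_left₀ (apply_nonneg w x) (h w) _)

lemma finrank_pos' : 0 < Module.finrank ℚ K := Module.finrank_pos

/-- the root of the norm -/
noncomputable def rt (N : ℝ) : ℝ := N ^ (1 / (Module.finrank ℚ K : ℝ))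

lemma rt_pow {N : ℝ} (h : 0 ≤ N) : rt K N ^ Module.finrank ℚ K = N := by
  have := finrank_pos' K
  have h1 : (Module.finrank ℚ K : ℝ) ≠ 0 := by exact_mod_cast this.ne'
  rw [rt, ← Real.rpow_natCast, ← Real.rpow_mul h, one_div_mul_cancel h1, Real.rpow_one]

lemma rt_pos {N : ℝ} (h : 0 < N) : 0 < rt K N := Real.rpow_pos_of_pos h _

lemma rt_nonneg {N : ℝ} (h : 0 ≤ N) : 0 ≤ rt K N := Real.rpow_nonneg h _

lemma rt_mono {M N : ℝ} (h : 0 ≤ M) (h1 : M ≤ N) : rt K M ≤ rt K N :=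
  Real.rpow_le_rpow h h1 (by positivity)

lemma rt_mul {M N : ℝ} (h : 0 ≤ M) (h1 : 0 ≤ N) : rt K (M * N) = rt K M * rt K N :=
  Real.mul_rpow h h1

lemma one_le_absNorm {𝔮 : Ideal (𝓞 K)} (h : 𝔮 ≠ ⊥) : (1 : ℝ) ≤ (Ideal.absNorm 𝔮 : ℝ) := by
  have : Ideal.absNorm 𝔮 ≠ 0 := by rwa [Ne, Ideal.absNorm_eq_zero_iff]
  exact_mod_cast Nat.one_le_iff_ne_zero.mpr this

/-- **counting the elements of an ideal in a box** -/
theorem box_count : ∃ C : ℝ, 1 ≤ C ∧ ∀ 𝔮 : Ideal (𝓞 K), 𝔮 ≠ ⊥ → ∀ R : ℝ, 0 ≤ R →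
    ∀ S : Finset (𝓞 K), (∀ x ∈ S, x ∈ 𝔮 ∧ ∀ w : InfinitePlace K, w (x : K) ≤ R) →
      (S.card : ℝ) ≤ C * (1 + R ^ Module.finrank ℚ K / (Ideal.absNorm 𝔮 : ℝ)) := by
  classical
  obtain ⟨n, hn⟩ : ∃ n, n = Module.finrank ℚ K := ⟨_, rfl⟩
  have hn0 : 0 < n := by rw [hn]; exact finrank_pos' K
  refine ⟨11 ^ n, one_le_pow₀ (by norm_num), fun 𝔮 h𝔮 R hR S hS => ?_⟩
  have hN1 := one_le_absNorm K h𝔮
  obtain ⟨N, hN⟩ : ∃ N : ℝ, N = (Ideal.absNorm 𝔮 : ℝ) := ⟨_, rfl⟩
  rw [← hN] at hN1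
  have hN0 : 0 < N := by linarith
  obtain ⟨r, hr⟩ : ∃ r : ℝ, r = rt K N := ⟨_, rfl⟩
  have hr0 : 0 < r := by rw [hr]; exact rt_pos K hN0
  have hrn : r ^ n = N := by rw [hr, hn]; exact rt_pow K hN0.le
  obtain ⟨s, hs⟩ : ∃ s : ℝ, s = r / 4 := ⟨_, rfl⟩
  have hs0 : 0 < s := by rw [hs]; positivity
  obtain ⟨m, hm⟩ : ∃ m : ℕ, m = ⌈R / s⌉₊ := ⟨_, rfl⟩
  have hRm : R / s ≤ m := by rw [hm]; exact Nat.le_ceil _
  obtain ⟨f, hf⟩ : ∃ f : 𝓞 K → ((w : InfinitePlace K) × Fin w.mult) → ℤ,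
      ∀ x i, f x i = ⌊crd K (x : K) i / s⌋ := ⟨fun x i => ⌊crd K (x : K) i / s⌋, fun _ _ => rfl⟩
  have hinj : Set.InjOn f S := by
    intro x hx y hy hxy
    by_contra hne
    have h1 : ∀ i, |crd K ((x - y : 𝓞 K) : K) i| < s := by
      intro i
      have h2 : ⌊crd K (x : K) i / s⌋ = ⌊crd K (y : K) i / s⌋ := by
        rw [← hf, ← hf, hxy]
      have h3 := Int.abs_sub_lt_one_of_floor_eq_floor h2
      have e : ((x - y : 𝓞 K) : K) = (x : K) - (y : K) := map_sub (algebraMap (𝓞 K) K) x y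
      rw [e, crd_sub]
      rw [← sub_div, abs_div, abs_of_pos hs0, div_lt_one hs0] at h3
      exact h3
    have h4 : ∀ w : InfinitePlace K, w ((x - y : 𝓞 K) : K) ≤ 2 * s :=
      fun w => (place_lt K hs0 h1 w).le
    have h5 := prod_place_le K h4
    rw [← absNorm_span, ← hn] at h5
    have h6 : (2 * s) ^ n < N := by
      rw [← hrn]
      refine pow_lt_pow_left₀ (by rw [hs]; linarith) (by positivity) hn0.ne'
    have h7 : Ideal.span {x - y} ≤ 𝔮 := by
      rw [Ideal.span_singleton_le_iff_mem]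
      exact sub_mem (hS x hx).1 (hS y hy).1
    have h8 : Ideal.span {x - y} ≠ ⊥ := by
      rw [Ne, Ideal.span_singleton_eq_bot]; exact sub_ne_zero.mpr hne
    have h9 : Ideal.absNorm 𝔮 ≤ Ideal.absNorm (Ideal.span {x - y}) := by
      refine Nat.le_of_dvd (Nat.pos_of_ne_zero ?_) (Ideal.absNorm_dvd_absNorm_of_le h7)
      rwa [Ne, Ideal.absNorm_eq_zero_iff]
    have h10 : N ≤ (Ideal.absNorm (Ideal.span {x - y}) : ℝ) := by
      rw [hN]; exact_mod_cast h9
    linarith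
  have himg : S.image f ⊆ Fintype.piFinset (fun _ => Finset.Icc (-(m : ℤ)) m) := by
    intro g hg
    obtain ⟨x, hx, rfl⟩ := Finset.mem_image.mp hg
    rw [Fintype.mem_piFinset]
    intro i
    have h1 : |crd K (x : K) i / s| ≤ m := by
      rw [abs_div, abs_of_pos hs0]
      refine le_trans ?_ hRm
      exact div_le_div_of_nonneg_right ((abs_crd_le K _ i).trans ((hS x hx).2 _)) hs0.le
    obtain ⟨h2, h3⟩ := abs_le.mp h1
    rw [Finset.mem_Icc, hf]
    constructor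
    · rw [Int.le_floor]; push_cast; exact h2
    · have h4 : ((⌊crd K (x : K) i / s⌋ : ℤ) : ℝ) ≤ m := (Int.floor_le _).trans h3
      exact_mod_cast h4
  have hcard : S.card ≤ (2 * m + 1) ^ n := by
    rw [← Finset.card_image_of_injOn hinj]
    refine (Finset.card_le_card himg).trans (le_of_eq ?_)
    rw [Fintype.card_piFinset, Finset.prod_const, Finset.card_univ, card_crd, ← hn, Int.card_Icc]
    congr 1
    omega
  have h1 : (2 * (m : ℝ) + 1) ≤ 8 * (R / r) + 3 := by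
    have h2 : (m : ℝ) < R / s + 1 := by rw [hm]; exact Nat.ceil_lt_add_one (by positivity)
    have h3 : R / s = 4 * (R / r) := by rw [hs]; field_simp
    rw [h3] at h2
    linarith
  obtain ⟨t, ht⟩ : ∃ t : ℝ, t = R / r := ⟨_, rfl⟩
  have ht0 : 0 ≤ t := by rw [ht]; positivity
  have htn : t ^ n = R ^ n / N := by rw [ht, div_pow, hrn]
  rw [← ht] at h1
  have h2 : (S.card : ℝ) ≤ (2 * (m : ℝ) + 1) ^ n := by exact_mod_cast hcard
  rw [← hn, ← hN, ← htn]
  refine h2.trans ((pow_le_pow_left₀ (by positivity) h1 n).trans ?_)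
  rcases le_total t 1 with h | h
  · calc (8 * t + 3) ^ n ≤ (11 : ℝ) ^ n := pow_le_pow_left₀ (by positivity) (by linarith) n
      _ ≤ 11 ^ n * (1 + t ^ n) := by
        have : (0 : ℝ) ≤ 11 ^ n * t ^ n := by positivity
        linarith
  · calc (8 * t + 3) ^ n ≤ (11 * t) ^ n := pow_le_pow_left₀ (by positivity) (by linarith) n
      _ = 11 ^ n * t ^ n := by rw [mul_pow]
      _ ≤ 11 ^ n * (1 + t ^ n) := by
        have : (0 : ℝ) ≤ 11 ^ n := by positivity
        nlinarith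

/-- the upper bound in `balanced` -/
theorem balanced_aux : ∃ C : ℝ, 1 ≤ C ∧ ∀ x : 𝓞 K, x ≠ 0 → ∃ u : (𝓞 K)ˣ,
    ∀ w : InfinitePlace K, w (((u : 𝓞 K) * x : 𝓞 K) : K) ≤
      C * rt K (Ideal.absNorm (Ideal.span {x}) : ℝ) := by
  classical
  obtain ⟨B, hB⟩ := isBounded_iff_forall_norm_le.mp
    (mixedEmbedding.fundamentalCone.isBounded_normLeOne K)
  refine ⟨max B 1, le_max_right _ _, fun x hx => ?_⟩
  have hxK : (x : K) ≠ 0 := by
    rwa [Ne, RingOfIntegers.coe_eq_zero_iff]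
  obtain ⟨N, hN⟩ : ∃ N : ℝ, N = (Ideal.absNorm (Ideal.span {x}) : ℝ) := ⟨_, rfl⟩
  have hN1 : 1 ≤ N := by
    rw [hN]; exact one_le_absNorm K (by rw [Ne, Ideal.span_singleton_eq_bot]; exact hx)
  have hN0 : 0 < N := by linarith
  have hnorm : mixedEmbedding.norm (mixedEmbedding K (x : K)) = N := by
    rw [hN, absNorm_span, prod_eq_abs_norm, mixedEmbedding.norm_eq_norm]
  obtain ⟨u, hu⟩ := mixedEmbedding.fundamentalCone.exists_unit_smul_mem (K := K)
    (x := mixedEmbedding K (x : K)) (by rw [hnorm]; exact hN0.ne')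
  refine ⟨u, fun w => ?_⟩
  obtain ⟨r, hr⟩ : ∃ r : ℝ, r = rt K N := ⟨_, rfl⟩
  have hr0 : 0 < r := by rw [hr]; exact rt_pos K hN0
  have hrn : r ^ Module.finrank ℚ K = N := by rw [hr]; exact rt_pow K hN0.le
  have hmem : r⁻¹ • (u • mixedEmbedding K (x : K)) ∈ mixedEmbedding.fundamentalCone.normLeOne K := by
    rw [mixedEmbedding.fundamentalCone.mem_normLeOne]
    refine ⟨mixedEmbedding.fundamentalCone.smul_mem_of_mem hu (inv_ne_zero hr0.ne'), ?_⟩
    rw [mixedEmbedding.norm_smul, mixedEmbedding.norm_unit_smul, hnorm, abs_of_pos (inv_pos.mpr hr0),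
      inv_pow, hrn, inv_mul_cancel₀ hN0.ne']
  have h1 := hB _ hmem
  have h2 : mixedEmbedding.normAtPlace w (r⁻¹ • (u • mixedEmbedding K (x : K))) ≤ B := by
    refine le_trans ?_ h1
    rw [mixedEmbedding.norm_eq_sup'_normAtPlace]
    exact Finset.le_sup' (fun w => mixedEmbedding.normAtPlace w _) (Finset.mem_univ w)
  rw [mixedEmbedding.normAtPlace_smul, mixedEmbedding.unitSMul_smul, abs_of_pos (inv_pos.mpr hr0),
    ← map_mul, mixedEmbedding.normAtPlace_apply, inv_mul_le_iff₀ hr0] at h2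
  rw [← hN, ← hr]
  have e : (((u : 𝓞 K) * x : 𝓞 K) : K) = ((u : 𝓞 K) : K) * (x : K) :=
    map_mul (algebraMap (𝓞 K) K) _ _
  rw [e]
  refine h2.trans ?_
  rw [mul_comm]
  exact mul_le_mul_of_nonneg_right (le_max_left _ _) hr0.le

/-- **balanced generators** -/
theorem balanced : ∃ C : ℝ, 1 ≤ C ∧ ∀ x : 𝓞 K, x ≠ 0 → ∃ u : (𝓞 K)ˣ,
    ∀ w : InfinitePlace K, w (((u : 𝓞 K) * x : 𝓞 K) : K) ≤
      C * rt K (Ideal.absNorm (Ideal.span {x}) : ℝ) ∧
      rt K (Ideal.absNorm (Ideal.span {x}) : ℝ) ≤ C * w (((u : 𝓞 K) * x : 𝓞 K) : K) := by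
  classical
  obtain ⟨C, hC, h⟩ := balanced_aux K
  obtain ⟨n, hn⟩ : ∃ n, n = Module.finrank ℚ K := ⟨_, rfl⟩
  have hn0 : 0 < n := by rw [hn]; exact finrank_pos' K
  refine ⟨C ^ n, one_le_pow₀ hC, fun x hx => ?_⟩
  obtain ⟨u, hu⟩ := h x hx
  refine ⟨u, fun w => ?_⟩
  have hN1 := one_le_absNorm K (𝔮 := Ideal.span {x}) (by rw [Ne, Ideal.span_singleton_eq_bot]; exact hx)
  obtain ⟨N, hN⟩ : ∃ N : ℝ, N = (Ideal.absNorm (Ideal.span {x}) : ℝ) := ⟨_, rfl⟩
  rw [← hN] at hN1 hu ⊢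
  have hN0 : 0 < N := by linarith
  obtain ⟨r, hr⟩ : ∃ r : ℝ, r = rt K N := ⟨_, rfl⟩
  have hr0 : 0 < r := by rw [hr]; exact rt_pos K hN0
  have hrn : r ^ n = N := by rw [hr, hn]; exact rt_pow K hN0.le
  rw [← hr] at hu ⊢
  have hCn : C ≤ C ^ n := le_self_pow₀ hC hn0.ne'
  refine ⟨(hu w).trans (mul_le_mul_of_nonneg_right hCn hr0.le), ?_⟩
  -- the lower bound
  obtain ⟨y, hy⟩ : ∃ y : K, y = (((u : 𝓞 K) * x : 𝓞 K) : K) := ⟨_, rfl⟩
  have hprod : ∏ v : InfinitePlace K, v y ^ v.mult = r ^ n := by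
    rw [hrn, hN, hy, ← absNorm_span]
    congr 2
    exact Ideal.span_singleton_mul_left_unit u.isUnit x
  rw [← hy] at hu ⊢
  have hw0 : 0 ≤ w y := apply_nonneg w y
  have hsum : w.mult + ∑ v ∈ Finset.univ.erase w, v.mult = n := by
    rw [hn, ← sum_mult_eq (K := K)]
    exact Finset.add_sum_erase _ (fun v => v.mult) (Finset.mem_univ w)
  have h1 : r ^ n ≤ w y ^ w.mult * (C * r) ^ (∑ v ∈ Finset.univ.erase w, v.mult) := by
    rw [← hprod, ← Finset.mul_prod_erase _ (fun v => v y ^ v.mult) (Finset.mem_univ w),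
      ← Finset.prod_pow_eq_pow_sum]
    refine mul_le_mul_of_nonneg_left ?_ (pow_nonneg hw0 _)
    exact Finset.prod_le_prod (fun v _ => pow_nonneg (apply_nonneg v y) _)
      (fun v _ => pow_le_pow_left₀ (apply_nonneg v y) (hu v) _)
  obtain ⟨k, hk⟩ : ∃ k, k = ∑ v ∈ Finset.univ.erase w, v.mult := ⟨_, rfl⟩
  rw [← hk] at h1 hsum
  have hkn : k ≤ n := by omega
  have h2 : r ^ w.mult ≤ w y ^ w.mult * C ^ k := by
    have h3 : r ^ k * r ^ w.mult ≤ r ^ k * (w y ^ w.mult * C ^ k) := by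
      rw [← pow_add, add_comm k, hsum]
      refine h1.trans (le_of_eq ?_)
      rw [mul_pow]
      ring
    exact le_of_mul_le_mul_left h3 (by positivity)
  have hm : 1 ≤ w.mult := mult_pos
  have hk2 : k + w.mult = n := by omega
  have h4 : r ^ w.mult ≤ (C ^ n * w y) ^ w.mult := by
    refine h2.trans ?_
    rw [mul_pow, mul_comm]
    refine mul_le_mul_of_nonneg_right ?_ (pow_nonneg hw0 _)
    rw [← pow_mul]
    exact pow_le_pow_right₀ hC (hkn.trans (Nat.le_mul_of_pos_right _ hm))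
  exact le_of_pow_le_pow_left₀ (by omega) (by positivity) h4

end

end Pool.Agent.Helper503_UI
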