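import Pool.Agent.Y772.HC.Mer

/-! # The primes which are norms of ideals: a lower bound in Mertens' theorem -/

set_option autoImplicit false

open NumberField Complex Filter Topology Ideal
open scoped ArithmeticFunction.vonMangoldt

namespace Pool.Agent.Helper503_UI

open Pool.Agent.Y773 Pool.Agent.Y767 Pool.Agent.Y772.SL Pool.Agent.Y772.NZ Pool.Agent.Y772
open Pool.Agent.Y772.HC

/-- `p` is a prime, `p > y`, and `p` is the norm of an ideal of `L` -/
def IsPd (L : Type) [Field L] [NumberField L] (y p : ℕ) : Prop :=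
  p.Prime ∧ y < p ∧ ∃ 𝔓 : Ideal (𝓞 L), absNorm 𝔓 = p

open Classical in
theorem mertens_lower (L : Type) [Field L] [NumberField L] (y : ℕ) : ∃ x0 : ℕ, ∀ x : ℕ, x0 ≤ x →
    Real.log x ≤ 2 * Module.finrank ℚ L *
      ∑ p ∈ (Finset.Icc 1 x).filter (IsPd L y), Real.log p / p := by
  obtain ⟨N, hN⟩ : ∃ N : ℝ, N = Module.finrank ℚ L := ⟨_, rfl⟩
  have hN0 : 0 ≤ N := by rw [hN]; exact Nat.cast_nonneg _
  obtain ⟨c', hc'⟩ : ∃ c' : ℕ → ℂ, ∀ n, c' n = if n.Prime ∧ y < n then cK L n else 0 :=
    ⟨_, fun _ => rfl⟩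
  obtain ⟨A, hA, hDK⟩ := DK.t_dirK L
  have hb := (hDK (one L) (one_norm L)).2.2.2.2.2.2.1
  have hsel : W388.SelE c' := by
    refine selE_of c' (B := N) (fun n => ?_) (fun n => (cc (one L) n).re)
      (fun n => (abs_re_le_norm _).trans (hb n)) (Finset.range (y + 1)) (fun p hp hpS => ?_)
      (lim_one DK.t_dirK L)
    · rw [hc']
      split_ifs
      · rw [hN]; exact cK_le n
      · rw [norm_zero]; exact hN0
    · have h1 : y < p := by
        rw [Finset.mem_range] at hpS; omega
      rw [hc', if_pos ⟨hp, h1⟩]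
      exact cK_prime hp
  unfold W388.SelE at hsel
  have h2 := hsel.eventually (lt_mem_nhds (show (1 / 2 : ℝ) < 1 by norm_num))
  obtain ⟨X, hX⟩ := (h2.and (eventually_gt_atTop 1)).exists_forall_of_atTop
  obtain ⟨x0, hx0⟩ := exists_nat_ge X
  refine ⟨x0, fun x hx => ?_⟩
  obtain ⟨h3, h4⟩ := hX x (hx0.trans (by exact_mod_cast hx))
  have hlog : 0 < Real.log x := Real.log_pos h4
  rw [lt_div_iff₀ hlog, Nat.floor_natCast] at h3
  have h5 : ∑ n ∈ Finset.Icc 1 x, Λ n * ‖c' n‖ ^ 2 / n ≤
      N * ∑ p ∈ (Finset.Icc 1 x).filter (IsPd L y), Real.log p / p := by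
    rw [Finset.mul_sum, Finset.sum_filter]
    refine Finset.sum_le_sum fun n hn => ?_
    rw [hc']
    by_cases hn1 : n.Prime ∧ y < n
    · rw [if_pos hn1]
      by_cases hn2 : ∃ 𝔓 : Ideal (𝓞 L), absNorm 𝔓 = n
      · rw [if_pos ⟨hn1.1, hn1.2, hn2⟩, cK_prime hn1.1,
          ArithmeticFunction.vonMangoldt_apply_prime hn1.1]
        have h6 : (cc (one L) n).re ≤ N := by
          refine (re_le_norm _).trans ?_
          rw [hN]
          exact Pool.Agent.Y772.DK.norm_cc_le (one L) (one_norm L) n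
        have h7 : 0 ≤ Real.log n := Real.log_natCast_nonneg _
        calc Real.log n * (cc (one L) n).re / n ≤ Real.log n * N / n := by gcongr
          _ = N * (Real.log n / n) := by ring
      · have h6 : ¬ IsPd L y n := fun h => hn2 h.2.2
        rw [if_neg h6]
        have h7 : {𝔞 : Ideal (𝓞 L) | absNorm 𝔞 = n} = ∅ := by
          ext 𝔞
          simp only [Set.mem_setOf_eq, Set.mem_empty_iff_false, iff_false]
          exact fun h => hn2 ⟨𝔞, h⟩
        have h8 : ‖cK L n‖ = 0 := by
          rw [cK_norm, h7]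
          simp
        rw [h8]
        simp
    · rw [if_neg hn1]
      have h9 : 0 ≤ (if IsPd L y n then N * (Real.log n / n) else 0) := by
        split_ifs
        · have : 0 ≤ Real.log n := Real.log_natCast_nonneg _
          positivity
        · exact le_rfl
      simpa using h9
  rw [hN] at h5
  linarith

end Pool.Agent.Helper503_UI
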