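import Pool.Agent.Helper503_UI.Geo
import Pool.Agent.Helper503_UI.Fam

/-! # Counting the pairs of ideals in the same ray class -/

set_option autoImplicit false
set_option linter.unusedSectionVars false

open NumberField

namespace Pool.Agent.Helper503_UI

open Pool.Agent.Y773 (TPos VM cc)
open Pool.Agent.Y767 (Mq Mq_cop Mq_ne_bot Mq_cancel Cls cls cls_eq cls_pi cK)
open Pool.Agent.Y773.IQ (ne_zero_of_cop cop_mono cop_one cop_congr cop_mul absNorm_pos' IM mem_IM)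

section

variable {K : Type} [Field K] [NumberField K]

lemma coe_mul' (x y : 𝓞 K) : ((x * y : 𝓞 K) : K) = (x : K) * (y : K) :=
  map_mul (algebraMap (𝓞 K) K) x y

lemma coe_sub' (x y : 𝓞 K) : ((x - y : 𝓞 K) : K) = (x : K) - (y : K) :=
  map_sub (algebraMap (𝓞 K) K) x y

lemma coe_add' (x y : 𝓞 K) : ((x + y : 𝓞 K) : K) = (x : K) + (y : K) :=
  map_add (algebraMap (𝓞 K) K) x y

lemma place_sub_le (w : InfinitePlace K) (x y : K) : w (x - y) ≤ w x + w y := by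
  rw [← InfinitePlace.norm_embedding_eq, ← InfinitePlace.norm_embedding_eq,
    ← InfinitePlace.norm_embedding_eq, map_sub]
  exact norm_sub_le _ _

/-- the pairs attached to a given ideal class and a given residue class of units -/
theorem fiber_count (B C₀ Z : ℝ) (hB : 1 ≤ B) (hC₀ : 1 ≤ C₀) (hZ : 0 ≤ Z) (C₁ : ℝ) (hC₁ : 1 ≤ C₁)
    (hbox : ∀ 𝔮 : Ideal (𝓞 K), 𝔮 ≠ ⊥ → ∀ R : ℝ, 0 ≤ R →
    ∀ S : Finset (𝓞 K), (∀ x ∈ S, x ∈ 𝔮 ∧ ∀ w : InfinitePlace K, w (x : K) ≤ R) →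
      (S.card : ℝ) ≤ C₁ * (1 + R ^ Module.finrank ℚ K / (Ideal.absNorm 𝔮 : ℝ)))
    {𝔮 : Ideal (𝓞 K)} (hbot : 𝔮 ≠ ⊥) (M : ℝ) (hM : 1 ≤ M)
    (𝔠 : Ideal (𝓞 K)) (h𝔠 : 𝔠 ≠ ⊥) (h𝔠N : (Ideal.absNorm 𝔠 : ℝ) ≤ C₀) (z : 𝓞 K) (hz : z ∈ 𝔠)
    (hz0 : z ≠ 0) (hzZ : ∀ w : InfinitePlace K, w (z : K) ≤ Z)
    (F : Finset (Ideal (𝓞 K) × Ideal (𝓞 K))) (α β : Ideal (𝓞 K) × Ideal (𝓞 K) → 𝓞 K)
    (e : 𝓞 K ⧸ 𝔮)
    (h0 : ∀ p ∈ F, p.1 ≠ ⊥ ∧ p.2 ≠ ⊥ ∧ IsCoprime p.1 p.2 ∧ (Ideal.absNorm p.1 : ℝ) ≤ M ∧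
      (Ideal.absNorm p.2 : ℝ) ≤ M)
    (hα : ∀ p ∈ F, p.1 * 𝔠 = Ideal.span {α p} ∧ ∀ w : InfinitePlace K, w (α p : K) ≤
      B * rt K (Ideal.absNorm (Ideal.span {α p}) : ℝ) ∧
      rt K (Ideal.absNorm (Ideal.span {α p}) : ℝ) ≤ B * w (α p : K))
    (hβ : ∀ p ∈ F, p.2 * 𝔠 = Ideal.span {β p} ∧ ∀ w : InfinitePlace K, w (β p : K) ≤
      B * rt K (Ideal.absNorm (Ideal.span {β p}) : ℝ) ∧
      rt K (Ideal.absNorm (Ideal.span {β p}) : ℝ) ≤ B * w (β p : K))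
    (he : ∀ p ∈ F, Ideal.Quotient.mk 𝔮 (α p) = e * Ideal.Quotient.mk 𝔮 (β p)) :
    (F.card : ℝ) ≤ C₁ * (1 + (2 * Z * B ^ 2 * rt K C₀) ^ Module.finrank ℚ K) *
      (C₁ * (1 + (2 * B ^ 2 * rt K (M * C₀) ^ 2) ^ Module.finrank ℚ K / (Ideal.absNorm 𝔮 : ℝ))) := by
  classical
  have hN𝔠 : (1 : ℝ) ≤ (Ideal.absNorm 𝔠 : ℝ) := one_le_absNorm K h𝔠
  have hrC0 : 0 < rt K C₀ := rt_pos K (by linarith)
  have hrMC : 0 < rt K (M * C₀) := rt_pos K (by positivity)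
  rcases F.eq_empty_or_nonempty with rfl | hne
  · rw [Finset.card_empty]
    push_cast
    positivity
  obtain ⟨p₀, hp₀, hmax⟩ := F.exists_max_image
    (fun p => max (Ideal.absNorm p.1 : ℝ) (Ideal.absNorm p.2 : ℝ)) hne
  obtain ⟨M', hM'⟩ : ∃ M' : ℝ, M' = max (Ideal.absNorm p₀.1 : ℝ) (Ideal.absNorm p₀.2 : ℝ) :=
    ⟨_, rfl⟩
  have hM'1 : 1 ≤ M' := by
    rw [hM']; exact (one_le_absNorm K (h0 p₀ hp₀).1).trans (le_max_left _ _)
  have hle1 : ∀ p ∈ F, (Ideal.absNorm p.1 : ℝ) ≤ M' := fun p hp => by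
    rw [hM']; exact (le_max_left _ _).trans (hmax p hp)
  have hle2 : ∀ p ∈ F, (Ideal.absNorm p.2 : ℝ) ≤ M' := fun p hp => by
    rw [hM']; exact (le_max_right _ _).trans (hmax p hp)
  have hM'M : M' ≤ M := by
    rw [hM']; exact max_le (h0 p₀ hp₀).2.2.2.1 (h0 p₀ hp₀).2.2.2.2
  have hNα : ∀ p ∈ F, (Ideal.absNorm (Ideal.span {α p}) : ℝ) =
      (Ideal.absNorm p.1 : ℝ) * (Ideal.absNorm 𝔠 : ℝ) := fun p hp => by
    rw [← (hα p hp).1, map_mul]; push_cast; rfl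
  have hNβ : ∀ p ∈ F, (Ideal.absNorm (Ideal.span {β p}) : ℝ) =
      (Ideal.absNorm p.2 : ℝ) * (Ideal.absNorm 𝔠 : ℝ) := fun p hp => by
    rw [← (hβ p hp).1, map_mul]; push_cast; rfl
  have hα1 : ∀ p ∈ F, ∀ w : InfinitePlace K, w (α p : K) ≤ B * rt K (M' * C₀) := by
    intro p hp w
    refine ((hα p hp).2 w).1.trans (mul_le_mul_of_nonneg_left (rt_mono K (by positivity) ?_)
      (by linarith))
    rw [hNα p hp]
    exact mul_le_mul (hle1 p hp) h𝔠N (by positivity) (by linarith)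
  have hβ1 : ∀ p ∈ F, ∀ w : InfinitePlace K, w (β p : K) ≤ B * rt K (M' * C₀) := by
    intro p hp w
    refine ((hβ p hp).2 w).1.trans (mul_le_mul_of_nonneg_left (rt_mono K (by positivity) ?_)
      (by linarith))
    rw [hNβ p hp]
    exact mul_le_mul (hle2 p hp) h𝔠N (by positivity) (by linarith)
  have hrM : rt K (M' * C₀) ≤ rt K (M * C₀) :=
    rt_mono K (by positivity) (mul_le_mul_of_nonneg_right hM'M (by linarith))
  have hα2 : ∀ p ∈ F, ∀ w : InfinitePlace K, w (α p : K) ≤ B * rt K (M * C₀) := fun p hp w =>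
    (hα1 p hp w).trans (mul_le_mul_of_nonneg_left hrM (by linarith))
  have hβ2 : ∀ p ∈ F, ∀ w : InfinitePlace K, w (β p : K) ≤ B * rt K (M * C₀) := fun p hp w =>
    (hβ1 p hp w).trans (mul_le_mul_of_nonneg_left hrM (by linarith))
  obtain ⟨D, hD⟩ : ∃ D : Ideal (𝓞 K) × Ideal (𝓞 K) → 𝓞 K, ∀ p, D p = α p₀ * β p - α p * β p₀ :=
    ⟨_, fun _ => rfl⟩
  -- the determinants
  have hdet : ((F.image D).card : ℝ) ≤
      C₁ * (1 + (2 * B ^ 2 * rt K (M * C₀) ^ 2) ^ Module.finrank ℚ K / (Ideal.absNorm 𝔮 : ℝ)) := by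
    refine hbox 𝔮 hbot _ (by positivity) _ ?_
    intro x hx
    obtain ⟨p, hp, rfl⟩ := Finset.mem_image.mp hx
    refine ⟨?_, fun w => ?_⟩
    · rw [hD, ← Ideal.Quotient.eq_zero_iff_mem, map_sub, map_mul, map_mul, he p hp, he p₀ hp₀]
      ring
    · rw [hD, coe_sub', coe_mul', coe_mul']
      refine (place_sub_le w _ _).trans ?_
      rw [map_mul, map_mul]
      have h1 := mul_le_mul (hα2 p₀ hp₀ w) (hβ2 p hp w) (apply_nonneg w _) (by positivity)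
      have h2 := mul_le_mul (hα2 p hp w) (hβ2 p₀ hp₀ w) (apply_nonneg w _) (by positivity)
      calc _ ≤ B * rt K (M * C₀) * (B * rt K (M * C₀)) + B * rt K (M * C₀) * (B * rt K (M * C₀)) :=
            add_le_add h1 h2
        _ = _ := by ring
  -- generators of `𝔠`
  have hcsup : 𝔠 = Ideal.span {α p₀} ⊔ Ideal.span {β p₀} := by
    rw [← (hα p₀ hp₀).1, ← (hβ p₀ hp₀).1, ← Ideal.sup_mul,
      Ideal.isCoprime_iff_sup_eq.mp (h0 p₀ hp₀).2.2.1, ← Ideal.one_eq_top, one_mul]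
  obtain ⟨s, t, hst⟩ : ∃ s t : 𝓞 K, z = s * α p₀ + t * β p₀ := by
    rw [hcsup] at hz
    obtain ⟨a, ha, b, hb, hab⟩ := Submodule.mem_sup.mp hz
    obtain ⟨s, rfl⟩ := Ideal.mem_span_singleton'.mp ha
    obtain ⟨t, rfl⟩ := Ideal.mem_span_singleton'.mp hb
    exact ⟨s, t, hab.symm⟩
  -- the number of the pairs with a given determinant
  have hfib : ∀ δ ∈ F.image D, ((F.filter (fun p => D p = δ)).card : ℝ) ≤
      C₁ * (1 + (2 * Z * B ^ 2 * rt K C₀) ^ Module.finrank ℚ K) := by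
    intro δ hδ
    obtain ⟨p₁, hp₁, hδ₁⟩ := Finset.mem_image.mp hδ
    obtain ⟨μ, hμ⟩ : ∃ μ : Ideal (𝓞 K) × Ideal (𝓞 K) → 𝓞 K, ∀ p,
        μ p = s * (α p - α p₁) + t * (β p - β p₁) := ⟨_, fun _ => rfl⟩
    have hkey : ∀ p, D p = δ → α p₀ * μ p = z * (α p - α p₁) ∧ β p₀ * μ p = z * (β p - β p₁) := by
      intro p hp
      have h1 : α p₀ * β p - α p * β p₀ = α p₀ * β p₁ - α p₁ * β p₀ := by
        rw [← hD, ← hD, hp, hδ₁]
      rw [hμ, hst]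
      constructor
      · linear_combination t * h1
      · linear_combination -s * h1
    have hinj : Set.InjOn μ ((F.filter (fun p => D p = δ) : Finset _) : Set _) := by
      intro p hp q hq hpq
      obtain ⟨hp1, hp2⟩ := Finset.mem_filter.mp hp
      obtain ⟨hq1, hq2⟩ := Finset.mem_filter.mp hq
      obtain ⟨a1, a2⟩ := hkey p hp2
      obtain ⟨b1, b2⟩ := hkey q hq2
      rw [hpq] at a1 a2
      have c1 : α p = α q := by
        have := mul_left_cancel₀ hz0 (a1.symm.trans b1)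
        exact sub_left_injective this
      have c2 : β p = β q := by
        have := mul_left_cancel₀ hz0 (a2.symm.trans b2)
        exact sub_left_injective this
      have d1 : p.1 = q.1 := by
        apply mul_right_cancel₀ (b := 𝔠) h𝔠
        rw [(hα p hp1).1, (hα q hq1).1, c1]
      have d2 : p.2 = q.2 := by
        apply mul_right_cancel₀ (b := 𝔠) h𝔠
        rw [(hβ p hp1).1, (hβ q hq1).1, c2]
      exact Prod.ext d1 d2
    have hbd : (((F.filter (fun p => D p = δ)).image μ).card : ℝ) ≤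
        C₁ * (1 + (2 * Z * B ^ 2 * rt K C₀) ^ Module.finrank ℚ K /
          (Ideal.absNorm (⊤ : Ideal (𝓞 K)) : ℝ)) := by
      refine hbox ⊤ (by
        intro h
        exact bot_ne_top h.symm) _ (by positivity) _ ?_
      intro x hx
      obtain ⟨p, hp, rfl⟩ := Finset.mem_image.mp hx
      obtain ⟨hp1, hp2⟩ := Finset.mem_filter.mp hp
      refine ⟨Submodule.mem_top, fun w => ?_⟩
      obtain ⟨a1, a2⟩ := hkey p hp2
      have hμ0 : 0 ≤ w (μ p : K) := apply_nonneg w _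
      have hrM' : 0 < rt K M' := rt_pos K (by linarith)
      have e1 : rt K (M' * C₀) = rt K M' * rt K C₀ := rt_mul K (by linarith) (by linarith)
      have hfin : ∀ (γ : 𝓞 K) (γ' : 𝓞 K), rt K M' ≤ B * w (γ : K) →
          w (γ : K) * w (μ p : K) = w (z : K) * w (γ' : K) →
          w (γ' : K) ≤ 2 * (B * rt K (M' * C₀)) →
          w (μ p : K) ≤ 2 * Z * B ^ 2 * rt K C₀ := by
        intro γ γ' g1 g2 g3
        have k1 : rt K M' * w (μ p : K) ≤ B * (w (z : K) * w (γ' : K)) := by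
          rw [← g2, ← mul_assoc]
          exact mul_le_mul_of_nonneg_right g1 hμ0
        have k2 : w (z : K) * w (γ' : K) ≤ Z * (2 * (B * rt K (M' * C₀))) :=
          mul_le_mul (hzZ w) g3 (apply_nonneg w _) hZ
        have k3 : rt K M' * w (μ p : K) ≤ rt K M' * (2 * Z * B ^ 2 * rt K C₀) := by
          refine k1.trans ((mul_le_mul_of_nonneg_left k2 (by linarith)).trans (le_of_eq ?_))
          rw [e1]; ring
        exact le_of_mul_le_mul_left k3 hrM'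
      rcases le_total (Ideal.absNorm p₀.2 : ℝ) (Ideal.absNorm p₀.1 : ℝ) with hc | hc
      · have hMe : M' = (Ideal.absNorm p₀.1 : ℝ) := by rw [hM', max_eq_left hc]
        refine hfin (α p₀) (α p - α p₁) ?_ ?_ ?_
        · refine le_trans (rt_mono K (by linarith) ?_) ((hα p₀ hp₀).2 w).2
          rw [hNα p₀ hp₀, ← hMe]
          exact le_mul_of_one_le_right (by linarith) hN𝔠
        · have a3 := congrArg (fun x : 𝓞 K => w (x : K)) a1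
          simp only [map_mul] at a3
          exact a3
        · rw [coe_sub']
          refine (place_sub_le w _ _).trans ?_
          linarith [hα1 p hp1 w, hα1 p₁ hp₁ w]
      · have hMe : M' = (Ideal.absNorm p₀.2 : ℝ) := by rw [hM', max_eq_right hc]
        refine hfin (β p₀) (β p - β p₁) ?_ ?_ ?_
        · refine le_trans (rt_mono K (by linarith) ?_) ((hβ p₀ hp₀).2 w).2
          rw [hNβ p₀ hp₀, ← hMe]
          exact le_mul_of_one_le_right (by linarith) hN𝔠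
        · have a3 := congrArg (fun x : 𝓞 K => w (x : K)) a2
          simp only [map_mul] at a3
          exact a3
        · rw [coe_sub']
          refine (place_sub_le w _ _).trans ?_
          linarith [hβ1 p hp1 w, hβ1 p₁ hp₁ w]
    rw [Finset.card_image_of_injOn hinj, Ideal.absNorm_top, Nat.cast_one, div_one] at hbd
    exact hbd
  rw [Finset.card_eq_sum_card_image D F]
  push_cast
  calc _ ≤ ∑ _δ ∈ F.image D, C₁ * (1 + (2 * Z * B ^ 2 * rt K C₀) ^ Module.finrank ℚ K) :=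
        Finset.sum_le_sum hfib
    _ = ((F.image D).card : ℝ) * (C₁ * (1 + (2 * Z * B ^ 2 * rt K C₀) ^ Module.finrank ℚ K)) := by
        rw [Finset.sum_const, nsmul_eq_mul]
    _ ≤ _ := by
        rw [mul_comm]
        exact mul_le_mul_of_nonneg_left hdet (by positivity)

/-- **the pairs of coprime ideals in the same class** -/
theorem cop_count (K : Type) [Field K] [NumberField K] : ∃ C : ℝ, 1 ≤ C ∧
    ∀ (𝔮 : Ideal (𝓞 K)) (_ : 𝔮 ≠ ⊥) (htop : 𝔮 ≠ ⊤) (M : ℝ), 1 ≤ M →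
    ∀ Q : Finset (Mq 𝔮 × Mq 𝔮), (∀ p ∈ Q, cls (pi1 htop) p.1 = cls (pi1 htop) p.2 ∧
      IsCoprime (p.1 : Ideal (𝓞 K)) (p.2 : Ideal (𝓞 K)) ∧
      (Ideal.absNorm (p.1 : Ideal (𝓞 K)) : ℝ) ≤ M ∧
      (Ideal.absNorm (p.2 : Ideal (𝓞 K)) : ℝ) ≤ M) →
      (Q.card : ℝ) ≤ C * ku 𝔮 * (1 + M ^ 2 / (Ideal.absNorm 𝔮 : ℝ)) := by
  classical
  obtain ⟨B, hB, hbal⟩ := balanced K
  obtain ⟨C₁, hC₁, hbox⟩ := box_count K
  obtain ⟨n, hn⟩ : ∃ n, n = Module.finrank ℚ K := ⟨_, rfl⟩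
  -- representatives of the ideal classes
  have hrep : ∀ c : ClassGroup (𝓞 K), ∃ 𝔠 : Ideal (𝓞 K), ∃ h : 𝔠 ∈ nonZeroDivisors (Ideal (𝓞 K)),
      ClassGroup.mk0 ⟨𝔠, h⟩ = c⁻¹ := by
    intro c
    obtain ⟨𝔠, h𝔠⟩ := ClassGroup.mk0_surjective c⁻¹
    exact ⟨𝔠, 𝔠.2, h𝔠⟩
  choose 𝔠 h𝔠 h𝔠c using hrep
  have h𝔠0 : ∀ c, 𝔠 c ≠ ⊥ := fun c => mem_nonZeroDivisors_iff_ne_zero.mp (h𝔠 c)
  have hz : ∀ c, ∃ z : 𝓞 K, z ∈ 𝔠 c ∧ z ≠ 0 := fun c =>
    (Submodule.ne_bot_iff _).mp (h𝔠0 c)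
  choose z hz1 hz0 using hz
  obtain ⟨C₀, hC₀, hC₀'⟩ : ∃ C₀ : ℝ, 1 ≤ C₀ ∧ ∀ c, (Ideal.absNorm (𝔠 c) : ℝ) ≤ C₀ := by
    refine ⟨1 + ∑ c, (Ideal.absNorm (𝔠 c) : ℝ), ?_, fun c => ?_⟩
    · have : (0 : ℝ) ≤ ∑ c, (Ideal.absNorm (𝔠 c) : ℝ) := Finset.sum_nonneg fun _ _ => Nat.cast_nonneg _
      linarith
    · have := Finset.single_le_sum (f := fun c => (Ideal.absNorm (𝔠 c) : ℝ))
        (fun _ _ => Nat.cast_nonneg _) (Finset.mem_univ c)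
      linarith
  obtain ⟨Z, hZ, hZ'⟩ : ∃ Z : ℝ, 0 ≤ Z ∧ ∀ c (w : InfinitePlace K), w (z c : K) ≤ Z := by
    refine ⟨∑ c, ∑ w : InfinitePlace K, w (z c : K),
      Finset.sum_nonneg fun _ _ => Finset.sum_nonneg fun _ _ => apply_nonneg _ _, fun c w => ?_⟩
    have h1 := Finset.single_le_sum (f := fun w : InfinitePlace K => w (z c : K))
      (fun _ _ => apply_nonneg _ _) (Finset.mem_univ w)
    have h2 := Finset.single_le_sum (f := fun c => ∑ w : InfinitePlace K, w (z c : K))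
      (fun _ _ => Finset.sum_nonneg fun _ _ => apply_nonneg _ _) (Finset.mem_univ c)
    exact h1.trans h2
  obtain ⟨A₁, hA₁⟩ : ∃ A₁ : ℝ, A₁ = C₁ * (1 + (2 * Z * B ^ 2 * rt K C₀) ^ n) := ⟨_, rfl⟩
  obtain ⟨A₂, hA₂⟩ : ∃ A₂ : ℝ, A₂ = (2 * B ^ 2) ^ n * C₀ ^ 2 := ⟨_, rfl⟩
  have hrC0 : 0 < rt K C₀ := rt_pos K (by linarith)
  have hA₁1 : 1 ≤ A₁ := by
    rw [hA₁]
    have : 0 ≤ (2 * Z * B ^ 2 * rt K C₀) ^ n := by positivity
    nlinarith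
  have hA₂1 : 1 ≤ A₂ := by
    rw [hA₂]
    have h1 : 1 ≤ (2 * B ^ 2) ^ n := one_le_pow₀ (by nlinarith)
    have h2 : 1 ≤ C₀ ^ 2 := one_le_pow₀ hC₀
    nlinarith
  have hcl : (1 : ℝ) ≤ Nat.card (ClassGroup (𝓞 K)) := by
    have : 0 < Nat.card (ClassGroup (𝓞 K)) := Nat.card_pos
    exact_mod_cast this
  refine ⟨Nat.card (ClassGroup (𝓞 K)) * (A₁ * (C₁ * A₂)), ?_, ?_⟩
  · have h1 : 1 ≤ C₁ * A₂ := one_le_mul_of_one_le_of_one_le hC₁ hA₂1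
    exact one_le_mul_of_one_le_of_one_le hcl (one_le_mul_of_one_le_of_one_le hA₁1 h1)
  intro 𝔮 hbot htop M hM Q hQ
  have : Finite (𝓞 K ⧸ 𝔮) := Ideal.finiteQuotientOfFreeOfNeBot 𝔮 hbot
  have := Mq_cancel htop
  -- the data attached to a pair
  have hdata : ∀ p : Ideal (𝓞 K) × Ideal (𝓞 K), ∃ (c : ClassGroup (𝓞 K)) (α β : 𝓞 K) (u : (𝓞 K)ˣ),
      p ∈ Q.image (fun p => ((p.1 : Ideal (𝓞 K)), (p.2 : Ideal (𝓞 K)))) →
      (p.1 * 𝔠 c = Ideal.span {α} ∧ ∀ w : InfinitePlace K, w (α : K) ≤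
        B * rt K (Ideal.absNorm (Ideal.span {α}) : ℝ) ∧
        rt K (Ideal.absNorm (Ideal.span {α}) : ℝ) ≤ B * w (α : K)) ∧
      (p.2 * 𝔠 c = Ideal.span {β} ∧ ∀ w : InfinitePlace K, w (β : K) ≤
        B * rt K (Ideal.absNorm (Ideal.span {β}) : ℝ) ∧
        rt K (Ideal.absNorm (Ideal.span {β}) : ℝ) ≤ B * w (β : K)) ∧
      Ideal.Quotient.mk 𝔮 α = Ideal.Quotient.mk 𝔮 (u : 𝓞 K) * Ideal.Quotient.mk 𝔮 β := by
    intro p
    by_cases hp : p ∈ Q.image (fun p => ((p.1 : Ideal (𝓞 K)), (p.2 : Ideal (𝓞 K))))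
    swap
    · exact ⟨1, 0, 0, 1, fun h => absurd h hp⟩
    obtain ⟨q, hq, rfl⟩ := Finset.mem_image.mp hp
    obtain ⟨q1, q2, q3, q4⟩ := hQ q hq
    obtain ⟨x, y, hxy⟩ := cls_eq q1
    have hxy' := congrArg Subtype.val hxy
    rw [Submonoid.coe_mul, Submonoid.coe_mul, pi1_coe, pi1_coe] at hxy'
    have hx0 : (x : 𝓞 K) ≠ 0 := ne_zero_of_cop htop (T1_cop x)
    have hy0 : (y : 𝓞 K) ≠ 0 := ne_zero_of_cop htop (T1_cop y)
    have ha0 := Mq_ne_bot htop q.1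
    have hb0 := Mq_ne_bot htop q.2
    obtain ⟨c, hc⟩ : ∃ c : ClassGroup (𝓞 K), c = ClassGroup.mk0
      ⟨(q.1 : Ideal (𝓞 K)), mem_nonZeroDivisors_iff_ne_zero.mpr ha0⟩ := ⟨_, rfl⟩
    have hprin : ∀ (𝔞 : Ideal (𝓞 K)) (h : 𝔞 ∈ nonZeroDivisors (Ideal (𝓞 K))),
        ClassGroup.mk0 ⟨𝔞, h⟩ = c → ∃ α : 𝓞 K, α ≠ 0 ∧ 𝔞 * 𝔠 c = Ideal.span {α} := by
      intro 𝔞 h h1
      have h2 : ClassGroup.mk0 (⟨𝔞, h⟩ * ⟨𝔠 c, h𝔠 c⟩) = 1 := by
        rw [map_mul, h1, h𝔠c, mul_inv_cancel]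
      rw [ClassGroup.mk0_eq_one_iff] at h2
      obtain ⟨α, hα⟩ := h2
      have h3 : 𝔞 * 𝔠 c = Ideal.span {α} := hα
      refine ⟨α, ?_, h3⟩
      rintro rfl
      rw [Ideal.span_singleton_eq_bot.mpr rfl] at h3
      exact mul_ne_zero (mem_nonZeroDivisors_iff_ne_zero.mp h) (h𝔠0 c) h3
    have hcb : ClassGroup.mk0 ⟨(q.2 : Ideal (𝓞 K)), mem_nonZeroDivisors_iff_ne_zero.mpr hb0⟩ = c := by
      rw [hc, ClassGroup.mk0_eq_mk0_iff]
      exact ⟨y, x, hy0, hx0, hxy'.symm⟩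
    obtain ⟨α₀, hα₀, hα₁⟩ := hprin _ _ hc.symm
    obtain ⟨β₀, hβ₀, hβ₁⟩ := hprin _ _ hcb
    obtain ⟨ua, hua⟩ := hbal α₀ hα₀
    obtain ⟨ub, hub⟩ := hbal β₀ hβ₀
    have ea : Ideal.span {(ua : 𝓞 K) * α₀} = Ideal.span {α₀} :=
      Ideal.span_singleton_mul_left_unit ua.isUnit α₀
    have eb : Ideal.span {(ub : 𝓞 K) * β₀} = Ideal.span {β₀} :=
      Ideal.span_singleton_mul_left_unit ub.isUnit β₀
    -- the unit
    have hassoc : Ideal.span {(y : 𝓞 K) * ((ub : 𝓞 K) * β₀)} =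
        Ideal.span {(x : 𝓞 K) * ((ua : 𝓞 K) * α₀)} := by
      rw [← Ideal.span_singleton_mul_span_singleton (y : 𝓞 K),
        ← Ideal.span_singleton_mul_span_singleton (x : 𝓞 K),
        ea, eb, ← hα₁, ← hβ₁, ← mul_assoc, ← mul_assoc, hxy']
    rw [Ideal.span_singleton_eq_span_singleton] at hassoc
    obtain ⟨v, hv⟩ := hassoc
    refine ⟨c, (ua : 𝓞 K) * α₀, (ub : 𝓞 K) * β₀, v, fun _ => ⟨⟨?_, ?_⟩, ⟨?_, ?_⟩, ?_⟩⟩
    · rw [ea]; exact hα₁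
    · rw [ea]; exact hua
    · rw [eb]; exact hβ₁
    · rw [eb]; exact hub
    · have h4 := congrArg (Ideal.Quotient.mk 𝔮) hv
      have e1 := (Ideal.Quotient.eq (I := 𝔮)).mpr (T1_mem x)
      have e2 := (Ideal.Quotient.eq (I := 𝔮)).mpr (T1_mem y)
      rw [map_mul, map_mul, map_mul (Ideal.Quotient.mk 𝔮) (x : 𝓞 K), e1, e2, map_one, one_mul,
        one_mul] at h4
      rw [← h4, mul_comm]
  choose c α β u hdata using hdata
  obtain ⟨Q', hQ'⟩ : ∃ Q' : Finset (Ideal (𝓞 K) × Ideal (𝓞 K)),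
    Q' = Q.image (fun p => ((p.1 : Ideal (𝓞 K)), (p.2 : Ideal (𝓞 K)))) := ⟨_, rfl⟩
  rw [← hQ'] at hdata
  have hcardQ : Q.card = Q'.card := by
    rw [hQ', Finset.card_image_of_injective]
    intro p q h
    obtain ⟨h1, h2⟩ := Prod.ext_iff.mp h
    exact Prod.ext (Subtype.ext h1) (Subtype.ext h2)
  obtain ⟨U, hU⟩ : ∃ U : Finset (𝓞 K ⧸ 𝔮), (U : Set (𝓞 K ⧸ 𝔮)) =
      Set.range (fun u : (𝓞 K)ˣ => Ideal.Quotient.mk 𝔮 (u : 𝓞 K)) :=
    ⟨(Set.toFinite _).toFinset, Set.Finite.coe_toFinset _⟩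
  have hUc : U.card = ku 𝔮 := by
    unfold ku
    rw [← hU, Set.ncard_coe_finset]
  obtain ⟨Φ, hΦ⟩ : ∃ Φ : Ideal (𝓞 K) × Ideal (𝓞 K) → ClassGroup (𝓞 K) × (𝓞 K ⧸ 𝔮),
    ∀ p, Φ p = (c p, Ideal.Quotient.mk 𝔮 (u p : 𝓞 K)) := ⟨_, fun _ => rfl⟩
  have hN1 : (1 : ℝ) ≤ (Ideal.absNorm 𝔮 : ℝ) := one_le_absNorm K hbot
  have hfib : ∀ b ∈ Q'.image Φ, ((Q'.filter (fun p => Φ p = b)).card : ℝ) ≤
      A₁ * (C₁ * A₂) * (1 + M ^ 2 / (Ideal.absNorm 𝔮 : ℝ)) := by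
    intro b _
    have h1 := fiber_count B C₀ Z hB hC₀ hZ C₁ hC₁ hbox hbot M hM (𝔠 b.1) (h𝔠0 b.1) (hC₀' b.1)
      (z b.1) (hz1 b.1) (hz0 b.1) (hZ' b.1) (Q'.filter (fun p => Φ p = b)) α β b.2 (by
        intro p hp
        obtain ⟨hp1, -⟩ := Finset.mem_filter.mp hp
        rw [hQ'] at hp1
        obtain ⟨q, hq, rfl⟩ := Finset.mem_image.mp hp1
        obtain ⟨-, q2, q3, q4⟩ := hQ q hq
        exact ⟨Mq_ne_bot htop q.1, Mq_ne_bot htop q.2, q2, q3, q4⟩) (by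
        intro p hp
        obtain ⟨hp1, hp2⟩ := Finset.mem_filter.mp hp
        have h2 : b.1 = c p := by rw [← hp2, hΦ]
        rw [h2]
        exact (hdata p hp1).1) (by
        intro p hp
        obtain ⟨hp1, hp2⟩ := Finset.mem_filter.mp hp
        have h2 : b.1 = c p := by rw [← hp2, hΦ]
        rw [h2]
        exact (hdata p hp1).2.1) (by
        intro p hp
        obtain ⟨hp1, hp2⟩ := Finset.mem_filter.mp hp
        have h2 : b.2 = Ideal.Quotient.mk 𝔮 (u p : 𝓞 K) := by rw [← hp2, hΦ]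
        rw [h2]
        exact (hdata p hp1).2.2)
    rw [← hn, ← hA₁] at h1
    refine h1.trans ?_
    rw [mul_assoc A₁ (C₁ * A₂), mul_assoc C₁ A₂]
    refine mul_le_mul_of_nonneg_left (mul_le_mul_of_nonneg_left ?_ (by linarith)) (by linarith)
    have e1 : (2 * B ^ 2 * rt K (M * C₀) ^ 2) ^ n = A₂ * M ^ 2 := by
      have e2 : rt K (M * C₀) ^ n = M * C₀ := by rw [hn]; exact rt_pow K (by positivity)
      rw [mul_pow, ← pow_mul, mul_comm 2 n, pow_mul, e2, hA₂]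
      ring
    rw [e1, mul_add, mul_one, mul_div_assoc]
    linarith
  have himg : (Q'.image Φ).card ≤ Nat.card (ClassGroup (𝓞 K)) * ku 𝔮 := by
    have h1 : Q'.image Φ ⊆ Finset.univ ×ˢ U := by
      intro b hb
      obtain ⟨p, -, rfl⟩ := Finset.mem_image.mp hb
      rw [Finset.mem_product, hΦ]
      refine ⟨Finset.mem_univ _, ?_⟩
      rw [← Finset.mem_coe, hU]
      exact ⟨u p, rfl⟩
    refine (Finset.card_le_card h1).trans (le_of_eq ?_)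
    rw [Finset.card_product, Finset.card_univ, hUc, Nat.card_eq_fintype_card]
  rw [hcardQ, Finset.card_eq_sum_card_image Φ Q']
  push_cast
  calc _ ≤ ∑ _b ∈ Q'.image Φ, A₁ * (C₁ * A₂) * (1 + M ^ 2 / (Ideal.absNorm 𝔮 : ℝ)) :=
        Finset.sum_le_sum hfib
    _ = ((Q'.image Φ).card : ℝ) * (A₁ * (C₁ * A₂) * (1 + M ^ 2 / (Ideal.absNorm 𝔮 : ℝ))) := by
        rw [Finset.sum_const, nsmul_eq_mul]
    _ ≤ ((Nat.card (ClassGroup (𝓞 K)) * ku 𝔮 : ℕ) : ℝ) *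
        (A₁ * (C₁ * A₂) * (1 + M ^ 2 / (Ideal.absNorm 𝔮 : ℝ))) := by
        refine mul_le_mul_of_nonneg_right (by exact_mod_cast himg) ?_
        have : 0 < C₁ * A₂ := by positivity
        have : 0 < A₁ := by linarith
        positivity
    _ = _ := by push_cast; ring

end

end Pool.Agent.Helper503_UI
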